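import Pool.Agent.TH966.AK.Conv

/-!
# Chains of local moves: concentration of `|S w| - μ^s |B w|`
-/

set_option autoImplicit false

namespace H726.GB

open Finset TH966.AK
open scoped Classical

noncomputable section

variable {α σ : Type} (Y : Sys α σ)

/-- weight of the chains of `m` upward moves from `w` -/
def U (f : α → ℝ) : ℕ → α → ℝ
  | 0 => f
  | m + 1 => fun w => ∑ q ∈ Y.S w, U f m (Y.ins w q) / ((Y.B (Y.ins w q)).card : ℝ)

/-- weight of the chains of `m` downward moves from `w` -/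
def V (f : α → ℝ) : ℕ → α → ℝ
  | 0 => f
  | m + 1 => fun w => ∑ q ∈ Y.B w, V f m (Y.rem w q) / ((Y.S (Y.rem w q)).card : ℝ)

variable {Y} {f : α → ℝ}

theorem U_nonneg (hf : Y.Wt f) : ∀ (m n : ℕ) (w : α), w ∈ Y.K n → 0 ≤ U Y f m w
  | 0, n, w, hw => hf.1 n w hw
  | m + 1, n, w, hw => by
    refine Finset.sum_nonneg fun q hq => div_nonneg ?_ (by positivity)
    exact U_nonneg hf m _ _ (Y.ins_K n w q hw hq)

theorem V_nonneg (h0 : Y.n0 = 0) (hf : Y.Wt f) :
    ∀ (m n : ℕ) (w : α), w ∈ Y.K (n + Y.s * m) → 0 ≤ V Y f m w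
  | 0, n, w, hw => hf.1 n w (by simpa using hw)
  | m + 1, n, w, hw => by
    refine Finset.sum_nonneg fun q hq => div_nonneg ?_ (by positivity)
    have e : n + Y.s * (m + 1) = (n + Y.s * m) + Y.s := by ring
    rw [e] at hw
    exact V_nonneg h0 hf m n _ (Y.rem_K _ w q (by omega) hw hq)

theorem sum_const_div (T : Finset σ) (x : ℝ) (hx : 0 ≤ x) :
    ∑ _q ∈ T, x / (T.card : ℝ) ≤ x := by
  rw [Finset.sum_const, nsmul_eq_mul]
  rcases Nat.eq_zero_or_pos T.card with h | h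
  · rw [h]; simpa using hx
  · rw [mul_div_cancel₀ _ (by exact_mod_cast h.ne')]

theorem U_sum (h0 : Y.n0 = 0) (hf : Y.Wt f) : ∀ (m n : ℕ),
    ∑ w ∈ Y.K n, U Y f m w ≤ ∑ w ∈ Y.K (n + Y.s * m), f w
  | 0, n => by simp [U]
  | m + 1, n => by
    have e : n + Y.s * (m + 1) = (n + Y.s) + Y.s * m := by ring
    rw [e]
    refine le_trans ?_ (U_sum h0 hf m (n + Y.s))
    have h1 := Y.sum_eq n (by omega) (fun _ w' => U Y f m w' / ((Y.B w').card : ℝ))
    show ∑ w ∈ Y.K n, ∑ q ∈ Y.S w, U Y f m (Y.ins w q) / ((Y.B (Y.ins w q)).card : ℝ) ≤ _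
    rw [h1]
    exact Finset.sum_le_sum fun w hw => sum_const_div _ _ (U_nonneg hf m _ w hw)

theorem V_sum (h0 : Y.n0 = 0) (hf : Y.Wt f) : ∀ (m n : ℕ),
    ∑ w ∈ Y.K (n + Y.s * m), V Y f m w ≤ ∑ w ∈ Y.K n, f w
  | 0, n => by simp [V]
  | m + 1, n => by
    have e : n + Y.s * (m + 1) = (n + Y.s * m) + Y.s := by ring
    rw [e]
    refine le_trans ?_ (V_sum h0 hf m n)
    have h1 := Y.sum_eq (n + Y.s * m) (by omega) (fun w _ => V Y f m w / ((Y.S w).card : ℝ))
    show ∑ w ∈ Y.K (n + Y.s * m + Y.s), ∑ q ∈ Y.B w,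
      V Y f m (Y.rem w q) / ((Y.S (Y.rem w q)).card : ℝ) ≤ _
    rw [← h1]
    exact Finset.sum_le_sum fun w hw => sum_const_div _ _ (V_nonneg h0 hf m n w hw)

theorem U_lower (hf : Y.Wt f) {ρ : ℝ} (hρ : 0 ≤ ρ) : ∀ (m n : ℕ) (w : α), w ∈ Y.K n →
    ρ * ((Y.B w).card + Y.C * m) ≤ (Y.S w).card - Y.C * m → f w * ρ ^ m ≤ U Y f m w
  | 0, n, w, hw, _ => by simp [U]
  | m + 1, n, w, hw, h => by
    have hC : (1 : ℝ) ≤ Y.C := by exact_mod_cast Y.hC
    have hfw := hf.1 n w hw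
    push_cast at h
    have hb0 : (0 : ℝ) < (Y.B w).card + Y.C := by positivity
    have key : ∀ q ∈ Y.S w, f w * ρ ^ m / ((Y.B w).card + Y.C) ≤
        U Y f m (Y.ins w q) / ((Y.B (Y.ins w q)).card : ℝ) := by
      intro q hq
      have c1 : ((Y.S w).card : ℝ) ≤ (Y.S (Y.ins w q)).card + Y.C := by
        exact_mod_cast Y.chS1 n w q hw hq
      have c2 : ((Y.B (Y.ins w q)).card : ℝ) ≤ (Y.B w).card + Y.C := by
        exact_mod_cast Y.chB2 n w q hw hq
      have c3 : (0 : ℝ) < (Y.B (Y.ins w q)).card := by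
        exact_mod_cast Finset.card_pos.2 ⟨q, Y.ins_B n w q hw hq⟩
      have ih := U_lower hf hρ m (n + Y.s) (Y.ins w q) (Y.ins_K n w q hw hq) (by
        have : ρ * ((Y.B (Y.ins w q)).card + Y.C * m) ≤ ρ * ((Y.B w).card + Y.C * (m + 1)) := by
          apply mul_le_mul_of_nonneg_left _ hρ
          linarith
        linarith)
      rw [hf.2 n w q hw hq] at ih
      exact div_le_div₀ (le_trans (by positivity) ih) ih c3 c2
    have h2 : ρ * ((Y.B w).card + Y.C) ≤ (Y.S w).card := by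
      have h3 : ρ * ((Y.B w).card + Y.C) ≤ ρ * ((Y.B w).card + Y.C * (m + 1)) := by
        apply mul_le_mul_of_nonneg_left _ hρ
        have : (0 : ℝ) ≤ Y.C * m := by positivity
        linarith
      have : (0 : ℝ) ≤ Y.C * (m + 1) := by positivity
      linarith
    calc f w * ρ ^ (m + 1) = f w * ρ ^ m / ((Y.B w).card + Y.C) * (ρ * ((Y.B w).card + Y.C)) := by
          field_simp
          ring
      _ ≤ f w * ρ ^ m / ((Y.B w).card + Y.C) * (Y.S w).card := by
          apply mul_le_mul_of_nonneg_left h2 (by positivity)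
      _ = ∑ q ∈ Y.S w, f w * ρ ^ m / ((Y.B w).card + Y.C) := by
          rw [Finset.sum_const, nsmul_eq_mul, mul_comm]
      _ ≤ _ := Finset.sum_le_sum key

theorem V_lower (h0 : Y.n0 = 0) (hf : Y.Wt f) {ρ : ℝ} (hρ : 0 ≤ ρ) :
    ∀ (m n : ℕ) (w : α), w ∈ Y.K (n + Y.s * m) →
    ρ * ((Y.S w).card + Y.C * m) ≤ (Y.B w).card - Y.C * m → f w * ρ ^ m ≤ V Y f m w
  | 0, n, w, hw, _ => by simp [V]
  | m + 1, n, w, hw, h => by
    have hC : (1 : ℝ) ≤ Y.C := by exact_mod_cast Y.hC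
    have hfw := hf.1 _ w hw
    have e : n + Y.s * (m + 1) = (n + Y.s * m) + Y.s := by ring
    rw [e] at hw
    push_cast at h
    have hb0 : (0 : ℝ) < (Y.S w).card + Y.C := by positivity
    have key : ∀ q ∈ Y.B w, f w * ρ ^ m / ((Y.S w).card + Y.C) ≤
        V Y f m (Y.rem w q) / ((Y.S (Y.rem w q)).card : ℝ) := by
      intro q hq
      have r1 := Y.rem_K _ w q (by omega) hw hq
      have r2 := Y.rem_S _ w q (by omega) hw hq
      have r3 := Y.ins_rem _ w q (by omega) hw hq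
      have d1 := Y.chB2 _ _ q r1 r2
      have d2 := Y.chS1 _ _ q r1 r2
      have d3 := hf.2 _ _ q r1 r2
      rw [r3] at d1 d2 d3
      have c1 : ((Y.B w).card : ℝ) ≤ (Y.B (Y.rem w q)).card + Y.C := by exact_mod_cast d1
      have c2 : ((Y.S (Y.rem w q)).card : ℝ) ≤ (Y.S w).card + Y.C := by exact_mod_cast d2
      have c3 : (0 : ℝ) < (Y.S (Y.rem w q)).card := by
        exact_mod_cast Finset.card_pos.2 ⟨q, r2⟩
      have ih := V_lower h0 hf hρ m n (Y.rem w q) r1 (by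
        have : ρ * ((Y.S (Y.rem w q)).card + Y.C * m) ≤ ρ * ((Y.S w).card + Y.C * (m + 1)) := by
          apply mul_le_mul_of_nonneg_left _ hρ
          linarith
        linarith)
      rw [← d3] at ih
      exact div_le_div₀ (le_trans (by positivity) ih) ih c3 c2
    have h2 : ρ * ((Y.S w).card + Y.C) ≤ (Y.B w).card := by
      have h3 : ρ * ((Y.S w).card + Y.C) ≤ ρ * ((Y.S w).card + Y.C * (m + 1)) := by
        apply mul_le_mul_of_nonneg_left _ hρ
        have : (0 : ℝ) ≤ Y.C * m := by positivity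
        linarith
      have : (0 : ℝ) ≤ Y.C * (m + 1) := by positivity
      linarith
    calc f w * ρ ^ (m + 1) = f w * ρ ^ m / ((Y.S w).card + Y.C) * (ρ * ((Y.S w).card + Y.C)) := by
          field_simp
          ring
      _ ≤ f w * ρ ^ m / ((Y.S w).card + Y.C) * (Y.B w).card := by
          apply mul_le_mul_of_nonneg_left h2 (by positivity)
      _ = ∑ q ∈ Y.B w, f w * ρ ^ m / ((Y.S w).card + Y.C) := by
          rw [Finset.sum_const, nsmul_eq_mul, mul_comm]
      _ ≤ _ := Finset.sum_le_sum key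

end

end H726.GB
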