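import Pool.Agent.H726.GB.GenD

/-!
# Two patterns with the same ends in dimension `d`: the concentration theorem
-/

set_option autoImplicit false

namespace H726.GD

open Finset TH966.AK
open scoped Classical

noncomputable section

variable {d : ℕ} {A : Pt d → Pt d → Prop} {tr : Pt d → Prop}

/-- a trivial rule -/
def rl0 (hA : Lat A tr) : Rl A :=
  rl hA [0] [0] ⟨by simp, by simp, rfl, rfl, by simp, by simp, by simp, by simp⟩ le_rfl

/-- the tail bound when the numbers of walks of at most `2 n` steps are at most `H μ^j` -/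
theorem conc (hA : Lat A tr) {μ : ℝ} (hμ : 1 ≤ μ) (low : ∀ n : ℕ, μ ^ n ≤ ((Kw A n).card : ℝ))
    (U U' : List (Pt d)) (h : Pr A U U') : ∃ c : ℝ, 0 < c ∧ ∀ (H : ℝ) (n : ℕ), 1 ≤ n →
      (∀ j ≤ 2 * n, ((Kw A j).card : ℝ) ≤ H * μ ^ j) → ∀ t : ℝ, 0 ≤ t →
      (((Kw A n).filter (fun w =>
        t ≤ |μ ^ U.length * NL tr U U' w - μ ^ U'.length * NL tr U' U w|)).card : ℝ) ≤
        2 * Real.exp 1 * H * Real.exp (-(c * (t ^ 2 / n))) * (Kw A n).card := by
  obtain ⟨c, hc, hh⟩ := list_tail hA hμ U U' h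
  refine ⟨c, hc, fun H n hn hH t ht => ?_⟩
  have h1 := hh (fun _ => 1) (fun _ => zero_le_one) (fun _ _ _ _ => rfl) H n hn (by
    intro j hj
    rw [Finset.sum_const, nsmul_eq_mul, mul_one]
    exact hH j hj) t ht
  rw [Finset.sum_const, nsmul_eq_mul, mul_one] at h1
  refine h1.trans ?_
  have hH0 : 0 ≤ H := by
    have h2 := hH 0 (by omega)
    rw [pow_zero, mul_one] at h2
    exact le_trans (Nat.cast_nonneg _) h2
  have h3 := low n
  calc 2 * Real.exp 1 * H * μ ^ n * Real.exp (-(c * (t ^ 2 / n)))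
      = 2 * Real.exp 1 * H * Real.exp (-(c * (t ^ 2 / n))) * μ ^ n := by ring
    _ ≤ _ := by gcongr

/-- the number of places where the walk `f` contains the path `U` and all the points of `U'`
outside of `U` are free -/
def NF (tr : (Pt d) → Prop) (U U' : List (Pt d)) {n : ℕ} (f : Fin (n + 1) → (Pt d)) : ℕ :=
  Set.ncard {x : (Pt d) | tr x ∧ U.map (x + ·) <:+: List.ofFn f ∧ ∀ y ∈ U', y ∉ U → ∀ k, f k ≠ x + y}

theorem NL_ofFn (U U' : List (Pt d)) {n : ℕ} (f : Fin (n + 1) → (Pt d)) :
    NL tr U U' (List.ofFn f) = NF tr U U' f := by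
  unfold NL NF
  congr 1
  ext x
  simp only [Set.mem_ofPred_eq, List.mem_ofFn, Set.mem_range, not_exists, ne_eq]

theorem ident (hA : Lat A tr) (U U' : List (Pt d)) (h : Pr A U U') (n s : ℕ)
    (hs : U'.length = U.length + s) :
    ∑ w ∈ Kw A n, (NL tr U U' w : ℝ) = ∑ w ∈ Kw A (n + s), (NL tr U' U w : ℝ) := by
  have hl : U.length ≤ U'.length := by omega
  have h1 := (rl hA U U' h hl).sys.sum_eq n (Nat.zero_le n) (fun _ _ => 1)
  have hss : (rl hA U U' h hl).sys.s = s := by
    show U'.length - U.length = s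
    omega
  rw [hss] at h1
  simp only [Finset.sum_const, nsmul_eq_mul, mul_one, card_S, card_B] at h1
  exact h1

/-- sums over walks given by functions -/
theorem fin_sum (hA : Lat A tr) (n : ℕ) (g : List (Pt d) → ℝ) :
    ∑ w ∈ Kw A n, g w = ∑ᶠ f ∈ {f : Fin (n + 1) → Pt d |
      f 0 = 0 ∧ Function.Injective f ∧ ∀ i : Fin n, A (f i.castSucc) (f i.succ)},
        g (List.ofFn f) := by
  have hset : ((Kw A n : Finset (List (Pt d))) : Set (List (Pt d))) = List.ofFn '' {f : Fin (n + 1) → Pt d |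
      f 0 = 0 ∧ Function.Injective f ∧ ∀ i : Fin n, A (f i.castSucc) (f i.succ)} := by
    ext w
    rw [Finset.mem_coe, (rl0 hA).mem_K, Set.mem_image]
    have key : ∀ f : Fin (n + 1) → Pt d, Walk A (List.ofFn f) ↔
        f 0 = 0 ∧ Function.Injective f ∧ ∀ i : Fin n, A (f i.castSucc) (f i.succ) := by
      intro f
      unfold Walk
      rw [List.nodup_ofFn, List.isChain_ofFn]
      refine and_congr ?_ (and_congr Iff.rfl ?_)
      · rw [List.ofFn_succ]
        simp
      · constructor
        · intro h i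
          exact h i.1 (by have := i.2; omega)
        · intro h i hi
          exact h ⟨i, by omega⟩
    constructor
    · rintro ⟨h1, h2⟩
      have e : List.ofFn (fun i : Fin (n + 1) => w[i.1]'(by rw [h1]; exact i.2)) = w := by
        apply List.ext_getElem
        · simp [h1]
        · intro i hi hi'
          rw [List.getElem_ofFn]
      refine ⟨_, ?_, e⟩
      exact (key (fun i : Fin (n + 1) => w[i.1]'(by rw [h1]; exact i.2))).1 (by rw [e]; exact h2)
    · rintro ⟨f, hf, rfl⟩
      exact ⟨by simp, (key f).2 hf⟩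
  rw [← finsum_mem_coe_finset, hset, finsum_mem_image List.ofFn_injective.injOn]

end

end H726.GD
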