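import Pool.Agent.H726.GB.Conc

/-!
# The concentration theorem with a weight depending on the end points
-/

set_option autoImplicit false

namespace H726.GB

open Finset TH966.AK
open scoped Classical

noncomputable section

variable {A : P → P → Prop} {tr : P → Prop}

theorem conc_w (hA : Lat A tr) {μ K1 : ℝ} (hμ : 1 ≤ μ) (hK1 : 0 ≤ K1)
    (up : ∀ n : ℕ, 2 ≤ n → ((Kw A n).card : ℝ) ≤ μ ^ n * Real.exp (K1 * Real.log n ^ 2)) :
    ∃ K : ℝ, 0 ≤ K ∧ ∀ U U' : List P, Pr A U U' → ∃ c : ℝ, 0 < c ∧ ∀ f : List P → ℝ,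
      (∀ w, 0 ≤ f w ∧ f w ≤ 1) →
      (∀ w w' : List P, w.head? = w'.head? → w.getLast? = w'.getLast? → f w = f w') →
      ∀ n : ℕ, 2 ≤ n → ∀ t : ℝ, 0 ≤ t →
      ∑ w ∈ (Kw A n).filter (fun w =>
        t ≤ |μ ^ U.length * NL tr U U' w - μ ^ U'.length * NL tr U' U w|), f w ≤
        Real.exp (K * Real.log n ^ 2 - c * (t ^ 2 / n)) * μ ^ n := by
  obtain ⟨B, hB⟩ : ∃ B : ℝ, B = 1 + ((Kw A 0).card : ℝ) + ((Kw A 1).card : ℝ) := ⟨_, rfl⟩
  have hc0 : (0 : ℝ) ≤ ((Kw A 0).card : ℝ) := Nat.cast_nonneg _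
  have hc1 : (0 : ℝ) ≤ ((Kw A 1).card : ℝ) := Nat.cast_nonneg _
  have hB1 : 1 ≤ B := by linarith
  have hl2 : 0 < Real.log 2 := Real.log_pos (by norm_num)
  obtain ⟨E, hE⟩ : ∃ E : ℝ, E = 2 * Real.exp 1 * B := ⟨_, rfl⟩
  have he1 : 1 ≤ Real.exp 1 := Real.one_le_exp (by norm_num)
  have hE1 : 1 ≤ E := by rw [hE]; nlinarith
  have hE0 : 0 ≤ Real.log E := Real.log_nonneg hE1
  refine ⟨Real.log E / Real.log 2 ^ 2 + 4 * K1, by positivity, fun U U' h => ?_⟩
  obtain ⟨c, hc, hh⟩ := list_tail hA hμ U U' h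
  refine ⟨c, hc, fun f hf0 hf1 n hn t ht => ?_⟩
  have hn' : (2 : ℝ) ≤ n := by exact_mod_cast hn
  have hln : Real.log 2 ≤ Real.log n := Real.log_le_log (by norm_num) hn'
  have hL2 : Real.log ((2 * n : ℕ) : ℝ) ≤ 2 * Real.log n := by
    push_cast
    rw [Real.log_mul (by norm_num) (by positivity)]
    linarith
  have hL0 : 0 ≤ Real.log ((2 * n : ℕ) : ℝ) := by
    apply Real.log_nonneg; push_cast; linarith
  have h1 := hh f (fun w => (hf0 w).1) hf1
    (B * Real.exp (K1 * Real.log ((2 * n : ℕ) : ℝ) ^ 2)) n (by omega) (by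
      intro j hj
      have hfle : ∑ w ∈ Kw A j, f w ≤ ((Kw A j).card : ℝ) := by
        calc ∑ w ∈ Kw A j, f w ≤ ∑ _w ∈ Kw A j, (1 : ℝ) :=
              Finset.sum_le_sum fun w _ => (hf0 w).2
          _ = _ := by simp
      refine hfle.trans ?_
      have hex : 1 ≤ Real.exp (K1 * Real.log ((2 * n : ℕ) : ℝ) ^ 2) :=
        Real.one_le_exp (by positivity)
      have hmj : 1 ≤ μ ^ j := one_le_pow₀ hμ
      have hBe : B ≤ B * Real.exp (K1 * Real.log ((2 * n : ℕ) : ℝ) ^ 2) * μ ^ j := by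
        calc B = B * 1 * 1 := by ring
          _ ≤ _ := by gcongr
      rcases Nat.lt_or_ge j 2 with hj2 | hj2
      · refine le_trans ?_ hBe
        rcases Nat.lt_or_ge j 1 with hj1 | hj1
        · have : j = 0 := by omega
          subst this
          linarith
        · have : j = 1 := by omega
          subst this
          linarith
      · refine (up j hj2).trans ?_
        have hj' : (2 : ℝ) ≤ j := by exact_mod_cast hj2
        have h3 : Real.log j ≤ Real.log ((2 * n : ℕ) : ℝ) :=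
          Real.log_le_log (by linarith) (by exact_mod_cast hj)
        have h4 : 0 ≤ Real.log (j : ℝ) := Real.log_nonneg (by linarith)
        calc μ ^ j * Real.exp (K1 * Real.log j ^ 2)
            ≤ μ ^ j * Real.exp (K1 * Real.log ((2 * n : ℕ) : ℝ) ^ 2) := by gcongr
          _ = 1 * Real.exp (K1 * Real.log ((2 * n : ℕ) : ℝ) ^ 2) * μ ^ j := by ring
          _ ≤ _ := by gcongr) t ht
  refine h1.trans ?_
  have h5 : E * Real.exp (K1 * Real.log ((2 * n : ℕ) : ℝ) ^ 2) ≤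
      Real.exp ((Real.log E / Real.log 2 ^ 2 + 4 * K1) * Real.log n ^ 2) := by
    have h6 : E = Real.exp (Real.log E) := (Real.exp_log (by linarith)).symm
    conv_lhs => rw [h6]
    rw [← Real.exp_add, Real.exp_le_exp, add_mul]
    apply add_le_add
    · rw [div_mul_eq_mul_div, le_div_iff₀ (by positivity)]
      exact mul_le_mul_of_nonneg_left (pow_le_pow_left₀ hl2.le hln 2) hE0
    · calc K1 * Real.log ((2 * n : ℕ) : ℝ) ^ 2 ≤ K1 * (2 * Real.log n) ^ 2 := by gcongr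
        _ = 4 * K1 * Real.log n ^ 2 := by ring
  rw [sub_eq_add_neg, Real.exp_add]
  calc 2 * Real.exp 1 * (B * Real.exp (K1 * Real.log ((2 * n : ℕ) : ℝ) ^ 2)) * μ ^ n *
        Real.exp (-(c * (t ^ 2 / n)))
      = (E * Real.exp (K1 * Real.log ((2 * n : ℕ) : ℝ) ^ 2)) *
        Real.exp (-(c * (t ^ 2 / n))) * μ ^ n := by rw [hE]; ring
    _ ≤ Real.exp ((Real.log E / Real.log 2 ^ 2 + 4 * K1) * Real.log n ^ 2) *
        Real.exp (-(c * (t ^ 2 / n))) * μ ^ n := by
        gcongr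

end

end H726.GB
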