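import Mathlib

/-!
# Reversible local moves: self-normalised Gaussian balance
-/

set_option autoImplicit false

namespace H726.EX

open Finset
open scoped Classical

noncomputable section

/-- a finite set of configurations with local moves `ins`, reversed by `rem` -/
structure Ex (α σ : Type) where
  X : Finset α
  S : α → Finset σ
  B : α → Finset σ
  ins : α → σ → α
  rem : α → σ → α
  C : ℕ
  hC : 1 ≤ C
  ins_X : ∀ w q, w ∈ X → q ∈ S w → ins w q ∈ X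
  ins_B : ∀ w q, w ∈ X → q ∈ S w → q ∈ B (ins w q)
  rem_ins : ∀ w q, w ∈ X → q ∈ S w → rem (ins w q) q = w
  rem_X : ∀ w q, w ∈ X → q ∈ B w → rem w q ∈ X
  rem_S : ∀ w q, w ∈ X → q ∈ B w → q ∈ S (rem w q)
  ins_rem : ∀ w q, w ∈ X → q ∈ B w → ins (rem w q) q = w
  chS : ∀ w q, w ∈ X → q ∈ S w → (S w).card ≤ (S (ins w q)).card + C
  chB : ∀ w q, w ∈ X → q ∈ S w → (B (ins w q)).card ≤ (B w).card + C

variable {α σ : Type}

/-- the reversed moves -/
def Ex.rev (Y : Ex α σ) : Ex α σ where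
  X := Y.X
  S := Y.B
  B := Y.S
  ins := Y.rem
  rem := Y.ins
  C := Y.C
  hC := Y.hC
  ins_X := Y.rem_X
  ins_B := Y.rem_S
  rem_ins := Y.ins_rem
  rem_X := Y.ins_X
  rem_S := Y.ins_B
  ins_rem := Y.rem_ins
  chS := by
    intro w q hw hq
    have h := Y.chB _ q (Y.rem_X w q hw hq) (Y.rem_S w q hw hq)
    rwa [Y.ins_rem w q hw hq] at h
  chB := by
    intro w q hw hq
    have h := Y.chS _ q (Y.rem_X w q hw hq) (Y.rem_S w q hw hq)
    rwa [Y.ins_rem w q hw hq] at h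

/-- a weight which is multiplied by `r` by every move -/
def Ex.Wt (Y : Ex α σ) (f : α → ℝ) (r : ℝ) : Prop :=
  (∀ w ∈ Y.X, 0 ≤ f w) ∧ ∀ w q, w ∈ Y.X → q ∈ Y.S w → f (Y.ins w q) = r * f w

theorem Ex.Wt.rev {Y : Ex α σ} {f : α → ℝ} {r : ℝ} (hr : 0 < r) (h : Y.Wt f r) :
    Y.rev.Wt f (1 / r) := by
  refine ⟨h.1, fun w q hw hq => ?_⟩
  have h1 := h.2 _ q (Y.rem_X w q hw hq) (Y.rem_S w q hw hq)
  rw [Y.ins_rem w q hw hq] at h1
  show f (Y.rem w q) = 1 / r * f w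
  rw [h1]
  field_simp

theorem Ex.sum_eq (Y : Ex α σ) (F : α → α → ℝ) :
    ∑ w ∈ Y.X, ∑ q ∈ Y.S w, F w (Y.ins w q) = ∑ w ∈ Y.X, ∑ q ∈ Y.B w, F (Y.rem w q) w := by
  rw [Finset.sum_sigma', Finset.sum_sigma']
  refine Finset.sum_bij' (fun p _ => ⟨Y.ins p.1 p.2, p.2⟩) (fun p _ => ⟨Y.rem p.1 p.2, p.2⟩)
    ?_ ?_ ?_ ?_ ?_
  · rintro ⟨w, q⟩ h
    rw [Finset.mem_sigma] at h ⊢
    exact ⟨Y.ins_X w q h.1 h.2, Y.ins_B w q h.1 h.2⟩
  · rintro ⟨w, q⟩ h
    rw [Finset.mem_sigma] at h ⊢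
    exact ⟨Y.rem_X w q h.1 h.2, Y.rem_S w q h.1 h.2⟩
  · rintro ⟨w, q⟩ h
    rw [Finset.mem_sigma] at h
    show (⟨Y.rem (Y.ins w q) q, q⟩ : Σ _ : α, σ) = ⟨w, q⟩
    rw [Y.rem_ins w q h.1 h.2]
  · rintro ⟨w, q⟩ h
    rw [Finset.mem_sigma] at h
    show (⟨Y.ins (Y.rem w q) q, q⟩ : Σ _ : α, σ) = ⟨w, q⟩
    rw [Y.ins_rem w q h.1 h.2]
  · rintro ⟨w, q⟩ h
    rw [Finset.mem_sigma] at h
    show F w (Y.ins w q) = F (Y.rem (Y.ins w q) q) (Y.ins w q)
    rw [Y.rem_ins w q h.1 h.2]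

/-- weight of the chains of `m` moves from `w` -/
def U (Y : Ex α σ) (f : α → ℝ) : ℕ → α → ℝ
  | 0 => f
  | m + 1 => fun w => ∑ q ∈ Y.S w, U Y f m (Y.ins w q) / ((Y.B (Y.ins w q)).card : ℝ)

variable {Y : Ex α σ} {f : α → ℝ} {r : ℝ}

theorem U_nonneg (hf : Y.Wt f r) : ∀ (m : ℕ) (w : α), w ∈ Y.X → 0 ≤ U Y f m w
  | 0, w, hw => hf.1 w hw
  | m + 1, w, hw => by
    refine Finset.sum_nonneg fun q hq => div_nonneg ?_ (by positivity)
    exact U_nonneg hf m _ (Y.ins_X w q hw hq)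

theorem sum_const_div (T : Finset σ) (x : ℝ) (hx : 0 ≤ x) :
    ∑ _q ∈ T, x / (T.card : ℝ) ≤ x := by
  rw [Finset.sum_const, nsmul_eq_mul]
  rcases Nat.eq_zero_or_pos T.card with h | h
  · rw [h]; simpa using hx
  · rw [mul_div_cancel₀ _ (by exact_mod_cast h.ne')]

theorem U_sum (hf : Y.Wt f r) : ∀ m : ℕ, ∑ w ∈ Y.X, U Y f m w ≤ ∑ w ∈ Y.X, f w
  | 0 => le_rfl
  | m + 1 => by
    refine le_trans ?_ (U_sum hf m)
    have h1 := Y.sum_eq (fun _ w' => U Y f m w' / ((Y.B w').card : ℝ))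
    show ∑ w ∈ Y.X, ∑ q ∈ Y.S w, U Y f m (Y.ins w q) / ((Y.B (Y.ins w q)).card : ℝ) ≤ _
    rw [h1]
    exact Finset.sum_le_sum fun w hw => sum_const_div _ _ (U_nonneg hf m w hw)

theorem U_lower (hf : Y.Wt f r) (hr : 0 < r) {ρ : ℝ} (hρ : 0 ≤ ρ) : ∀ (m : ℕ) (w : α),
    w ∈ Y.X → ρ * ((Y.B w).card + Y.C * m) ≤ (Y.S w).card - Y.C * m →
      f w * (r * ρ) ^ m ≤ U Y f m w
  | 0, w, hw, _ => by simp [U]
  | m + 1, w, hw, h => by
    have hC : (1 : ℝ) ≤ Y.C := by exact_mod_cast Y.hC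
    have hfw := hf.1 w hw
    push_cast at h
    have hb0 : (0 : ℝ) < (Y.B w).card + Y.C := by positivity
    have key : ∀ q ∈ Y.S w, r * f w * (r * ρ) ^ m / ((Y.B w).card + Y.C) ≤
        U Y f m (Y.ins w q) / ((Y.B (Y.ins w q)).card : ℝ) := by
      intro q hq
      have c1 : ((Y.S w).card : ℝ) ≤ (Y.S (Y.ins w q)).card + Y.C := by
        exact_mod_cast Y.chS w q hw hq
      have c2 : ((Y.B (Y.ins w q)).card : ℝ) ≤ (Y.B w).card + Y.C := by
        exact_mod_cast Y.chB w q hw hq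
      have c3 : (0 : ℝ) < (Y.B (Y.ins w q)).card := by
        exact_mod_cast Finset.card_pos.2 ⟨q, Y.ins_B w q hw hq⟩
      have ih := U_lower hf hr hρ m (Y.ins w q) (Y.ins_X w q hw hq) (by
        have : ρ * ((Y.B (Y.ins w q)).card + Y.C * m) ≤ ρ * ((Y.B w).card + Y.C * (m + 1)) := by
          apply mul_le_mul_of_nonneg_left _ hρ
          linarith
        linarith)
      rw [hf.2 w q hw hq] at ih
      exact div_le_div₀ (le_trans (by positivity) ih) ih c3 c2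
    have h2 : ρ * ((Y.B w).card + Y.C) ≤ (Y.S w).card := by
      have h3 : ρ * ((Y.B w).card + Y.C) ≤ ρ * ((Y.B w).card + Y.C * (m + 1)) := by
        apply mul_le_mul_of_nonneg_left _ hρ
        have : (0 : ℝ) ≤ Y.C * m := by positivity
        linarith
      have : (0 : ℝ) ≤ Y.C * (m + 1) := by positivity
      linarith
    calc f w * (r * ρ) ^ (m + 1) =
          r * f w * (r * ρ) ^ m / ((Y.B w).card + Y.C) * (ρ * ((Y.B w).card + Y.C)) := by
          field_simp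
          ring
      _ ≤ r * f w * (r * ρ) ^ m / ((Y.B w).card + Y.C) * (Y.S w).card := by
          apply mul_le_mul_of_nonneg_left h2 (by positivity)
      _ = ∑ q ∈ Y.S w, r * f w * (r * ρ) ^ m / ((Y.B w).card + Y.C) := by
          rw [Finset.sum_const, nsmul_eq_mul, mul_comm]
      _ ≤ _ := Finset.sum_le_sum key

/-- the constant in the exponent -/
def kap (C : ℕ) (r : ℝ) : ℝ := 1 / (2 * C * (2 + r)) / (4 * max 1 r)

theorem kap_pos {C : ℕ} (hC : 1 ≤ C) {r : ℝ} (hr : 0 < r) : 0 < kap C r := by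
  have h1 : (1 : ℝ) ≤ C := by exact_mod_cast hC
  have h2 : (0 : ℝ) < max 1 r := lt_max_of_lt_left one_pos
  unfold kap
  positivity

theorem inv_pow_le {δ : ℝ} (h0 : 0 ≤ δ) (h1 : δ ≤ 1) (m : ℕ) :
    (1 / (1 + δ)) ^ m ≤ Real.exp (-(m * (δ / 2))) := by
  have h2 : 1 / (1 + δ) ≤ Real.exp (-(δ / 2)) := by
    have h3 : 1 - δ / 2 ≤ Real.exp (-(δ / 2)) := by
      have := Real.add_one_le_exp (-(δ / 2))
      linarith
    refine le_trans ?_ h3
    rw [div_le_iff₀ (by linarith)]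
    nlinarith
  calc (1 / (1 + δ)) ^ m ≤ Real.exp (-(δ / 2)) ^ m := pow_le_pow_left₀ (by positivity) h2 m
    _ = Real.exp (-(m * (δ / 2))) := by rw [← Real.exp_nat_mul]; ring_nf

/-- one-sided tail -/
theorem one_side (hf : Y.Wt f r) (hr : 0 < r) {T t : ℝ} (hT : 0 < T) (ht : 0 ≤ t) :
    ∑ w ∈ Y.X.filter (fun w => ((Y.S w).card : ℝ) ≤ T ∧ ((Y.B w).card : ℝ) ≤ T ∧
      t ≤ r * (Y.S w).card - (Y.B w).card), f w ≤
      Real.exp 1 * Real.exp (-(kap Y.C r * (t ^ 2 / T))) * ∑ w ∈ Y.X, f w := by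
  have hC : (1 : ℝ) ≤ Y.C := by exact_mod_cast Y.hC
  obtain ⟨M, hM⟩ : ∃ M : ℝ, M = max 1 r := ⟨_, rfl⟩
  have hM1 : 1 ≤ M := by rw [hM]; exact le_max_left _ _
  have hMr : r ≤ M := by rw [hM]; exact le_max_right _ _
  have hZ : 0 ≤ ∑ w ∈ Y.X, f w := Finset.sum_nonneg fun w hw => hf.1 w hw
  rcases lt_or_ge (M * T) t with htT | htT
  · have he : Y.X.filter (fun w => ((Y.S w).card : ℝ) ≤ T ∧ ((Y.B w).card : ℝ) ≤ T ∧
        t ≤ r * (Y.S w).card - (Y.B w).card) = ∅ := by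
      rw [Finset.filter_eq_empty_iff]
      rintro w hw ⟨h1, h2, h3⟩
      have h4 : (0 : ℝ) ≤ (Y.B w).card := by positivity
      have h5 : (0 : ℝ) ≤ (Y.S w).card := by positivity
      have h7 : r * (Y.S w).card ≤ M * T := mul_le_mul hMr h1 h5 (by linarith)
      linarith
    rw [he, Finset.sum_empty]
    positivity
  obtain ⟨κ, hκ⟩ : ∃ κ : ℝ, κ = 1 / (2 * Y.C * (2 + r)) := ⟨_, rfl⟩
  have hκ0 : 0 < κ := by rw [hκ]; positivity
  have hkap : kap Y.C r = κ / (4 * M) := by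
    unfold kap
    rw [hκ, hM]
  rw [hkap]
  set m : ℕ := ⌊κ * t⌋₊ with hm
  have hm1 : (m : ℝ) ≤ κ * t := Nat.floor_le (by positivity)
  have hm2 : κ * t < m + 1 := Nat.lt_floor_add_one _
  set δ : ℝ := t / (2 * M * T) with hδ
  have hδ0 : 0 ≤ δ := by positivity
  have hδ1 : δ ≤ 1 / 2 := by
    rw [hδ, div_le_div_iff₀ (by positivity) (by norm_num)]
    nlinarith
  have hδT : δ * T ≤ t / 2 := by
    have e : δ * T = t * (1 / M) / 2 := by
      rw [hδ]; field_simp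
    rw [e]
    have : 1 / M ≤ 1 := by
      rw [div_le_one (by linarith)]; linarith
    nlinarith
  have e0 : κ * (2 * Y.C * (2 + r)) = 1 := by
    rw [hκ]; field_simp
  have hmC : (2 + r) * (Y.C * m) ≤ t / 2 := by
    have e1 : κ * t * (2 * Y.C * (2 + r)) = t := by
      calc κ * t * (2 * Y.C * (2 + r)) = (κ * (2 * Y.C * (2 + r))) * t := by ring
        _ = t := by rw [e0, one_mul]
    have e3 : (m : ℝ) * (2 * Y.C * (2 + r)) ≤ κ * t * (2 * Y.C * (2 + r)) :=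
      mul_le_mul_of_nonneg_right hm1 (by positivity)
    nlinarith
  set G := Y.X.filter (fun w => ((Y.S w).card : ℝ) ≤ T ∧ ((Y.B w).card : ℝ) ≤ T ∧
      t ≤ r * (Y.S w).card - (Y.B w).card) with hG
  have hCm : (0 : ℝ) ≤ Y.C * m := by positivity
  have h1 : (∑ w ∈ G, f w) * (1 + δ) ^ m ≤ ∑ w ∈ Y.X, f w := by
    calc (∑ w ∈ G, f w) * (1 + δ) ^ m = ∑ w ∈ G, f w * (r * ((1 + δ) / r)) ^ m := by
          rw [Finset.sum_mul]
          have : r * ((1 + δ) / r) = 1 + δ := by field_simp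
          rw [this]
      _ ≤ ∑ w ∈ G, U Y f m w := by
          refine Finset.sum_le_sum fun w hw => ?_
          rw [hG, mem_filter] at hw
          refine U_lower hf hr (by positivity) m w hw.1 ?_
          have hb0 : (0 : ℝ) ≤ (Y.B w).card := by positivity
          have e1 : δ * (Y.B w).card ≤ t / 2 :=
            (mul_le_mul_of_nonneg_left hw.2.2.1 hδ0).trans hδT
          have e2 : δ * (Y.C * m) ≤ 1 * (Y.C * m) :=
            mul_le_mul_of_nonneg_right (by linarith) hCm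
          have h3 := hw.2.2.2
          rw [div_mul_eq_mul_div, div_le_iff₀ hr]
          nlinarith
      _ ≤ ∑ w ∈ Y.X, U Y f m w := by
          refine Finset.sum_le_sum_of_subset_of_nonneg (filter_subset _ _) fun w hw _ => ?_
          exact U_nonneg hf m w hw
      _ ≤ _ := U_sum hf m
  have hp : 0 < (1 + δ) ^ m := by positivity
  calc ∑ w ∈ G, f w ≤ (∑ w ∈ Y.X, f w) / (1 + δ) ^ m := by
        rw [le_div_iff₀ hp]; exact h1
    _ = (1 / (1 + δ)) ^ m * ∑ w ∈ Y.X, f w := by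
        rw [div_pow, one_pow]; ring
    _ ≤ Real.exp (-(m * (δ / 2))) * ∑ w ∈ Y.X, f w :=
        mul_le_mul_of_nonneg_right (inv_pow_le hδ0 (by linarith) m) hZ
    _ ≤ (Real.exp 1 * Real.exp (-(κ / (4 * M) * (t ^ 2 / T)))) * ∑ w ∈ Y.X, f w := by
        apply mul_le_mul_of_nonneg_right _ hZ
        rw [← Real.exp_add, Real.exp_le_exp]
        have h2 : κ / (4 * M) * (t ^ 2 / T) = κ * t * (δ / 2) := by
          rw [hδ]
          field_simp
          ring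
        have h3 : κ * t * (δ / 2) ≤ (m + 1) * (δ / 2) :=
          mul_le_mul_of_nonneg_right hm2.le (by positivity)
        nlinarith

/-- the constant of the theorem -/
def kap2 (C : ℕ) (r : ℝ) : ℝ := min (kap C r) (kap C (1 / r) / r ^ 2)

theorem kap2_pos {C : ℕ} (hC : 1 ≤ C) {r : ℝ} (hr : 0 < r) : 0 < kap2 C r := by
  have h1 := kap_pos hC hr
  have h2 := kap_pos hC (show 0 < 1 / r by positivity)
  exact lt_min h1 (by positivity)

theorem sum_union_le' {s u : Finset α} {f : α → ℝ} (h : ∀ w ∈ s, w ∈ u → 0 ≤ f w) :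
    ∑ w ∈ s ∪ u, f w ≤ ∑ w ∈ s, f w + ∑ w ∈ u, f w := by
  rw [← Finset.sum_union_inter]
  have : 0 ≤ ∑ w ∈ s ∩ u, f w := Finset.sum_nonneg fun w hw => by
    rw [mem_inter] at hw
    exact h w hw.1 hw.2
  linarith

theorem sum_biUnion_le' {ι : Type} (I : Finset ι) (G : ι → Finset α) {f : α → ℝ}
    (h : ∀ k, ∀ w ∈ G k, 0 ≤ f w) : ∑ w ∈ I.biUnion G, f w ≤ ∑ k ∈ I, ∑ w ∈ G k, f w := by
  induction I using Finset.induction_on with
  | empty => simp
  | insert a I ha ih =>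
    rw [Finset.biUnion_insert, Finset.sum_insert ha]
    refine (sum_union_le' fun w hw _ => h a w hw).trans ?_
    linarith

/-- two-sided tail -/
theorem two_side (hf : Y.Wt f r) (hr : 0 < r) {T t : ℝ} (hT : 0 < T) (ht : 0 ≤ t) :
    ∑ w ∈ Y.X.filter (fun w => ((Y.S w).card : ℝ) ≤ T ∧ ((Y.B w).card : ℝ) ≤ T ∧
      t ≤ |r * (Y.S w).card - (Y.B w).card|), f w ≤
      2 * Real.exp 1 * Real.exp (-(kap2 Y.C r * (t ^ 2 / T))) * ∑ w ∈ Y.X, f w := by
  have hZ : 0 ≤ ∑ w ∈ Y.X, f w := Finset.sum_nonneg fun w hw => hf.1 w hw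
  have h1 := one_side hf hr hT ht
  have h2 := one_side (hf.rev hr) (show 0 < 1 / r by positivity) hT (t := t / r) (by positivity)
  have e1 : Y.rev.C = Y.C := rfl
  have e2 : ∑ w ∈ Y.rev.X, f w = ∑ w ∈ Y.X, f w := rfl
  rw [e1, e2] at h2
  have hsub : Y.X.filter (fun w => ((Y.S w).card : ℝ) ≤ T ∧ ((Y.B w).card : ℝ) ≤ T ∧
      t ≤ |r * (Y.S w).card - (Y.B w).card|) ⊆
      Y.X.filter (fun w => ((Y.S w).card : ℝ) ≤ T ∧ ((Y.B w).card : ℝ) ≤ T ∧
      t ≤ r * (Y.S w).card - (Y.B w).card) ∪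
      Y.rev.X.filter (fun w => ((Y.rev.S w).card : ℝ) ≤ T ∧ ((Y.rev.B w).card : ℝ) ≤ T ∧
      t / r ≤ 1 / r * (Y.rev.S w).card - (Y.rev.B w).card) := by
    intro w hw
    rw [mem_filter] at hw
    rw [mem_union, mem_filter, mem_filter]
    obtain ⟨h3, h4, h5, h6⟩ := hw
    rcases le_abs.1 h6 with h | h
    · exact Or.inl ⟨h3, h4, h5, h⟩
    · refine Or.inr ⟨h3, h5, h4, ?_⟩
      show t / r ≤ 1 / r * ((Y.B w).card : ℝ) - ((Y.S w).card : ℝ)
      rw [div_le_iff₀ hr]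
      have : (1 / r * ((Y.B w).card : ℝ) - ((Y.S w).card : ℝ)) * r =
          ((Y.B w).card : ℝ) - r * ((Y.S w).card : ℝ) := by field_simp
      rw [this]
      linarith
  have hfn : ∀ w ∈ Y.X, 0 ≤ f w := hf.1
  refine (Finset.sum_le_sum_of_subset_of_nonneg hsub fun w hw _ => ?_).trans ?_
  · rw [mem_union, mem_filter, mem_filter] at hw
    rcases hw with hw | hw
    · exact hfn w hw.1
    · exact hfn w hw.1
  refine (sum_union_le' fun w hw _ => hfn w (mem_filter.1 hw).1).trans ?_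
  have h3 : Real.exp (-(kap Y.C r * (t ^ 2 / T))) ≤
      Real.exp (-(kap2 Y.C r * (t ^ 2 / T))) := by
    rw [Real.exp_le_exp]
    have : kap2 Y.C r * (t ^ 2 / T) ≤ kap Y.C r * (t ^ 2 / T) :=
      mul_le_mul_of_nonneg_right (min_le_left _ _) (by positivity)
    linarith
  have h4 : Real.exp (-(kap Y.C (1 / r) * ((t / r) ^ 2 / T))) ≤
      Real.exp (-(kap2 Y.C r * (t ^ 2 / T))) := by
    rw [Real.exp_le_exp]
    have h5 : kap Y.C (1 / r) * ((t / r) ^ 2 / T) = kap Y.C (1 / r) / r ^ 2 * (t ^ 2 / T) := by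
      field_simp
    have : kap2 Y.C r * (t ^ 2 / T) ≤ kap Y.C (1 / r) / r ^ 2 * (t ^ 2 / T) :=
      mul_le_mul_of_nonneg_right (min_le_right _ _) (by positivity)
    linarith
  have h6 : Real.exp 1 * Real.exp (-(kap Y.C r * (t ^ 2 / T))) * ∑ w ∈ Y.X, f w ≤
      Real.exp 1 * Real.exp (-(kap2 Y.C r * (t ^ 2 / T))) * ∑ w ∈ Y.X, f w := by gcongr
  have h7 : Real.exp 1 * Real.exp (-(kap Y.C (1 / r) * ((t / r) ^ 2 / T))) *
      ∑ w ∈ Y.X, f w ≤ Real.exp 1 * Real.exp (-(kap2 Y.C r * (t ^ 2 / T))) *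
      ∑ w ∈ Y.X, f w := by gcongr
  have h8 := add_le_add (h1.trans h6) (h2.trans h7)
  refine h8.trans (le_of_eq (by ring))

/-- **self-normalised balance** -/
theorem balance (hf : Y.Wt f r) (hr : 0 < r) (N : ℕ)
    (hN : ∀ w ∈ Y.X, (Y.S w).card ≤ N ∧ (Y.B w).card ≤ N) {t : ℝ} (ht : 0 ≤ t) :
    ∑ w ∈ Y.X.filter (fun w => t * Real.sqrt ((Y.S w).card + (Y.B w).card) <
      |r * (Y.S w).card - (Y.B w).card|), f w ≤
      2 * Real.exp 1 * N * Real.exp (-(kap2 Y.C r * t ^ 2)) * ∑ w ∈ Y.X, f w := by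
  obtain ⟨G, hG⟩ : ∃ G : ℕ → Finset α, G = fun k : ℕ => Y.X.filter (fun w =>
      ((Y.S w).card : ℝ) ≤ k ∧ ((Y.B w).card : ℝ) ≤ k ∧
      t * Real.sqrt k ≤ |r * (Y.S w).card - (Y.B w).card|) := ⟨_, rfl⟩
  have hGk : ∀ k ∈ Finset.Icc 1 N, ∑ w ∈ G k, f w ≤
      2 * Real.exp 1 * Real.exp (-(kap2 Y.C r * t ^ 2)) * ∑ w ∈ Y.X, f w := by
    intro k hk
    have hk0 : (0 : ℝ) < k := by exact_mod_cast (Finset.mem_Icc.1 hk).1
    have h1 := two_side hf hr hk0 (t := t * Real.sqrt k) (by positivity)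
    have e1 : (t * Real.sqrt k) ^ 2 / (k : ℝ) = t ^ 2 := by
      rw [mul_pow, Real.sq_sqrt hk0.le]; field_simp
    rw [e1] at h1
    rw [hG]
    exact h1
  have hcov : Y.X.filter (fun w => t * Real.sqrt ((Y.S w).card + (Y.B w).card) <
      |r * (Y.S w).card - (Y.B w).card|) ⊆ (Finset.Icc 1 N).biUnion G := by
    intro w hw
    rw [mem_filter] at hw
    obtain ⟨hw1, hw2⟩ := hw
    obtain ⟨k, hkd⟩ : ∃ k : ℕ, k = max (Y.S w).card (Y.B w).card := ⟨_, rfl⟩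
    have hk1 : (Y.S w).card ≤ k := by rw [hkd]; exact le_max_left _ _
    have hk2 : (Y.B w).card ≤ k := by rw [hkd]; exact le_max_right _ _
    have hk3 : k ≤ (Y.S w).card + (Y.B w).card := by omega
    have hkpos : 1 ≤ k := by
      by_contra hcon
      have h1 : (Y.S w).card = 0 := by omega
      have h2 : (Y.B w).card = 0 := by omega
      rw [h1, h2] at hw2
      simp at hw2
    have hkle : k ≤ N := by
      rw [hkd]
      exact max_le (hN w hw1).1 (hN w hw1).2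
    rw [Finset.mem_biUnion]
    refine ⟨k, Finset.mem_Icc.2 ⟨hkpos, hkle⟩, ?_⟩
    rw [hG]
    simp only [Finset.mem_filter]
    refine ⟨hw1, by exact_mod_cast hk1, by exact_mod_cast hk2, ?_⟩
    refine le_trans (mul_le_mul_of_nonneg_left (Real.sqrt_le_sqrt ?_) ht) hw2.le
    exact_mod_cast hk3
  have hfn : ∀ w ∈ Y.X, 0 ≤ f w := hf.1
  have hGX : ∀ k, ∀ w ∈ G k, w ∈ Y.X := by
    intro k w hw
    rw [hG] at hw
    exact (mem_filter.1 hw).1
  calc ∑ w ∈ Y.X.filter (fun w => t * Real.sqrt ((Y.S w).card + (Y.B w).card) <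
      |r * (Y.S w).card - (Y.B w).card|), f w
      ≤ ∑ w ∈ (Finset.Icc 1 N).biUnion G, f w := by
        refine Finset.sum_le_sum_of_subset_of_nonneg hcov fun w hw _ => ?_
        rw [Finset.mem_biUnion] at hw
        obtain ⟨k, -, hk⟩ := hw
        exact hfn w (hGX k w hk)
    _ ≤ ∑ k ∈ Finset.Icc 1 N, ∑ w ∈ G k, f w :=
        sum_biUnion_le' _ _ fun k w hw => hfn w (hGX k w hw)
    _ ≤ ∑ _k ∈ Finset.Icc 1 N,
          2 * Real.exp 1 * Real.exp (-(kap2 Y.C r * t ^ 2)) * ∑ w ∈ Y.X, f w :=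
        Finset.sum_le_sum hGk
    _ = _ := by
        rw [Finset.sum_const, Nat.card_Icc, Nat.add_sub_cancel, nsmul_eq_mul]
        ring

end

end H726.EX
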