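import Pool.Agent.H726.GB.Exch

/-!
# Local surgery in the random-cluster model
-/

set_option autoImplicit false

namespace H726.FK

open Finset
open scoped Classical

noncomputable section

/-- one step: an open edge, or two wired vertices -/
def St (ω : Finset (Sym2 (ℤ × ℤ))) (W : Set (ℤ × ℤ)) (u v : ℤ × ℤ) : Prop :=
  s(u, v) ∈ ω ∨ (u ∈ W ∧ v ∈ W)

/-- connection by open edges, the set `W` being wired -/
def Conn (ω : Finset (Sym2 (ℤ × ℤ))) (W : Set (ℤ × ℤ)) : ℤ × ℤ → ℤ × ℤ → Prop :=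
  Relation.ReflTransGen (St ω W)

theorem St.symm {ω : Finset (Sym2 (ℤ × ℤ))} {W : Set (ℤ × ℤ)} {u v : ℤ × ℤ} (h : St ω W u v) :
    St ω W v u := by
  rcases h with h | h
  · left; rwa [Sym2.eq_swap]
  · exact Or.inr ⟨h.2, h.1⟩

theorem Conn.symm {ω : Finset (Sym2 (ℤ × ℤ))} {W : Set (ℤ × ℤ)} {u v : ℤ × ℤ}
    (h : Conn ω W u v) : Conn ω W v u := by
  induction h with
  | refl => exact Relation.ReflTransGen.refl
  | tail _ hs ih => exact Relation.ReflTransGen.head hs.symm ih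

theorem Conn.mono {ω ω' : Finset (Sym2 (ℤ × ℤ))} {W W' : Set (ℤ × ℤ)} (h1 : ω ⊆ ω')
    (h2 : W ⊆ W') {u v : ℤ × ℤ} (h : Conn ω W u v) : Conn ω' W' u v := by
  induction h with
  | refl => exact Relation.ReflTransGen.refl
  | tail _ hs ih =>
    refine ih.tail ?_
    rcases hs with hs | hs
    · exact Or.inl (h1 hs)
    · exact Or.inr ⟨h2 hs.1, h2 hs.2⟩

/-- the cluster of `v` -/
def cls (ω : Finset (Sym2 (ℤ × ℤ))) (W : Set (ℤ × ℤ)) (v : ℤ × ℤ) : Set (ℤ × ℤ) :=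
  {u | Conn ω W v u}

theorem cls_eq {ω : Finset (Sym2 (ℤ × ℤ))} {W : Set (ℤ × ℤ)} {u v : ℤ × ℤ}
    (h : Conn ω W v u) : cls ω W v = cls ω W u := by
  ext y
  exact ⟨fun hy => Relation.ReflTransGen.trans h.symm hy, fun hy => Relation.ReflTransGen.trans h hy⟩

/-- `ω` and `ω'` differ only in the window `G`, whose inner vertices are `I` -/
structure Surg (ω ω' G : Finset (Sym2 (ℤ × ℤ))) (W I : Set (ℤ × ℤ)) : Prop where
  same : ∀ e, e ∉ G → (e ∈ ω ↔ e ∈ ω')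
  loc : ∀ e ∈ ω, ∀ v ∈ I, v ∈ e → e ∈ G
  wI : ∀ v ∈ W, v ∉ I
  con : ∀ u v, u ∉ I → v ∉ I → Conn (ω ∩ G) ∅ u v → Conn (ω' ∩ G) ∅ u v

variable {ω ω' G : Finset (Sym2 (ℤ × ℤ))} {W I : Set (ℤ × ℤ)}

theorem Surg.step (h : Surg ω ω' G W I) {u : ℤ × ℤ} (hu : u ∉ I) {v : ℤ × ℤ}
    (huv : Conn ω W u v) : (v ∉ I → Conn ω' W u v) ∧
      (v ∈ I → ∃ y, y ∉ I ∧ Conn ω' W u y ∧ Conn (ω ∩ G) ∅ y v) := by
  induction huv with
  | refl => exact ⟨fun _ => Relation.ReflTransGen.refl, fun h => absurd h hu⟩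
  | @tail v v' _ hs ih =>
    have hb : ∀ {a b : ℤ × ℤ}, Conn (ω' ∩ G) ∅ a b → Conn ω' W a b := fun h =>
      h.mono Finset.inter_subset_left (Set.empty_subset _)
    by_cases hv : v ∈ I
    · obtain ⟨y, hy, h1, h2⟩ := ih.2 hv
      rcases hs with hs | hs
      · have hG : s(v, v') ∈ G := h.loc _ hs v hv (Sym2.mem_mk_left _ _)
        have h3 : Conn (ω ∩ G) ∅ y v' := h2.tail (Or.inl (Finset.mem_inter.2 ⟨hs, hG⟩))
        exact ⟨fun hv' => Relation.ReflTransGen.trans h1 (hb (h.con y v' hy hv' h3)),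
          fun _ => ⟨y, hy, h1, h3⟩⟩
      · exact absurd hv (h.wI v hs.1)
    · have h1 := ih.1 hv
      rcases hs with hs | hs
      · by_cases hG : s(v, v') ∈ G
        · have h3 : Conn (ω ∩ G) ∅ v v' :=
            Relation.ReflTransGen.single (Or.inl (Finset.mem_inter.2 ⟨hs, hG⟩))
          exact ⟨fun hv' => Relation.ReflTransGen.trans h1 (hb (h.con v v' hv hv' h3)),
            fun _ => ⟨v, hv, h1, h3⟩⟩
        · have h3 : s(v, v') ∈ ω' := (h.same _ hG).1 hs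
          refine ⟨fun _ => h1.tail (Or.inl h3), fun hv' => ?_⟩
          exact absurd (h.loc _ hs v' hv' (Sym2.mem_mk_right _ _)) hG
      · exact ⟨fun _ => h1.tail (Or.inr hs), fun hv' => absurd hv' (h.wI v' hs.2)⟩

theorem Surg.iff (h : Surg ω ω' G W I) (h' : Surg ω' ω G W I) {u v : ℤ × ℤ} (hu : u ∉ I)
    (hv : v ∉ I) : Conn ω W u v ↔ Conn ω' W u v :=
  ⟨fun huv => (h.step hu huv).1 hv, fun huv => (h'.step hu huv).1 hv⟩

/-! ### the number of clusters -/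

/-- the clusters -/
def Cl (Ω : Finset (ℤ × ℤ)) (W : Set (ℤ × ℤ)) (ω : Finset (Sym2 (ℤ × ℤ))) :
    Set (Set (ℤ × ℤ)) := {C | ∃ v ∈ Ω, C = cls ω W v}

/-- the clusters inside `I` -/
def Inn (a : Finset (Sym2 (ℤ × ℤ))) (I : Set (ℤ × ℤ)) : Set (Set (ℤ × ℤ)) :=
  {C | C ⊆ I ∧ ∃ v ∈ I, C = cls a ∅ v}

/-- the traces of the other clusters -/
def OO (Ω : Finset (ℤ × ℤ)) (W I : Set (ℤ × ℤ)) (ω : Finset (Sym2 (ℤ × ℤ))) :
    Set (Set (ℤ × ℤ)) := {S | ∃ v ∈ Ω, v ∉ I ∧ S = {u | u ∉ I ∧ Conn ω W v u}}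

theorem Cl_finite (Ω : Finset (ℤ × ℤ)) (W : Set (ℤ × ℤ)) (ω : Finset (Sym2 (ℤ × ℤ))) :
    (Cl Ω W ω).Finite := by
  have : Cl Ω W ω = (fun v => cls ω W v) '' (Ω : Set (ℤ × ℤ)) := by
    ext C
    simp only [Cl, Set.mem_ofPred_eq, Set.mem_image, Finset.mem_coe]
    exact ⟨fun ⟨v, h1, h2⟩ => ⟨v, h1, h2.symm⟩, fun ⟨v, h1, h2⟩ => ⟨v, h1, h2.symm⟩⟩
  rw [this]
  exact (Finset.finite_toSet _).image _

theorem mem_cls (ω : Finset (Sym2 (ℤ × ℤ))) (W : Set (ℤ × ℤ)) (v : ℤ × ℤ) : v ∈ cls ω W v :=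
  Relation.ReflTransGen.refl

theorem closed {Ω : Finset (ℤ × ℤ)} (hω : ∀ e ∈ ω, ∀ v ∈ e, v ∈ Ω) (hW : ∀ v ∈ W, v ∈ Ω)
    {u v : ℤ × ℤ} (hu : u ∈ Ω) (h : Conn ω W u v) : v ∈ Ω := by
  induction h with
  | refl => exact hu
  | tail _ hs _ =>
    rcases hs with hs | hs
    · exact hω _ hs _ (Sym2.mem_mk_right _ _)
    · exact hW _ hs.2

theorem inner_eq {Ω : Finset (ℤ × ℤ)} (hI : ∀ v ∈ I, v ∈ Ω)
    (loc : ∀ e ∈ ω, ∀ v ∈ I, v ∈ e → e ∈ G) (wI : ∀ v ∈ W, v ∉ I) :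
    {C | C ∈ Cl Ω W ω ∧ C ⊆ I} = Inn (ω ∩ G) I := by
  have hm : ∀ {a b : ℤ × ℤ}, Conn (ω ∩ G) ∅ a b → Conn ω W a b := fun h =>
    h.mono Finset.inter_subset_left (Set.empty_subset _)
  have key : ∀ v, (∀ u, Conn (ω ∩ G) ∅ v u → u ∈ I) → ∀ u, Conn ω W v u →
      Conn (ω ∩ G) ∅ v u := by
    intro v hv u huv
    induction huv with
    | refl => exact Relation.ReflTransGen.refl
    | @tail y y' _ hs ih =>
      have hy := hv y ih
      rcases hs with hs | hs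
      · exact ih.tail (Or.inl (Finset.mem_inter.2 ⟨hs, loc _ hs y hy (Sym2.mem_mk_left _ _)⟩))
      · exact absurd hy (wI y hs.1)
  ext C
  simp only [Cl, Inn, Set.mem_ofPred_eq]
  constructor
  · rintro ⟨⟨v, hv, rfl⟩, hC⟩
    have hvI : v ∈ I := hC (mem_cls _ _ _)
    have h1 : ∀ u, Conn (ω ∩ G) ∅ v u → u ∈ I := fun u hu => hC (hm hu)
    refine ⟨hC, v, hvI, ?_⟩
    ext u
    exact ⟨fun hu => key v h1 u hu, fun hu => hm hu⟩
  · rintro ⟨hC, v, hv, rfl⟩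
    have h1 : ∀ u, Conn (ω ∩ G) ∅ v u → u ∈ I := fun u hu => hC hu
    refine ⟨⟨v, hI v hv, ?_⟩, hC⟩
    ext u
    exact ⟨fun hu => hm hu, fun hu => key v h1 u hu⟩

theorem outer_card {Ω : Finset (ℤ × ℤ)} (hω : ∀ e ∈ ω, ∀ v ∈ e, v ∈ Ω)
    (hW : ∀ v ∈ W, v ∈ Ω) :
    {C | C ∈ Cl Ω W ω ∧ ¬ C ⊆ I}.ncard = (OO Ω W I ω).ncard := by
  have himg : OO Ω W I ω = (fun C => C \ I) '' {C | C ∈ Cl Ω W ω ∧ ¬ C ⊆ I} := by
    ext S
    simp only [OO, Cl, Set.mem_ofPred_eq, Set.mem_image]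
    constructor
    · rintro ⟨v, hv, hvI, rfl⟩
      refine ⟨cls ω W v, ⟨⟨v, hv, rfl⟩, fun h => hvI (h (mem_cls _ _ _))⟩, ?_⟩
      ext u
      simp only [cls, Set.mem_sdiff, Set.mem_ofPred_eq]
      exact and_comm
    · rintro ⟨C, ⟨⟨v, hv, rfl⟩, hC⟩, rfl⟩
      rw [Set.not_subset] at hC
      obtain ⟨u, hu, huI⟩ := hC
      have h1 : cls ω W v = cls ω W u := cls_eq hu
      refine ⟨u, closed hω hW hv hu, huI, ?_⟩
      rw [h1]
      ext y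
      simp only [cls, Set.mem_sdiff, Set.mem_ofPred_eq]
      exact and_comm
  rw [himg, Set.InjOn.ncard_image]
  rintro C ⟨⟨v, hv, rfl⟩, hC⟩ C' ⟨⟨v', hv', rfl⟩, hC'⟩ hCC
  simp only at hCC
  rw [Set.not_subset] at hC
  obtain ⟨u, hu, huI⟩ := hC
  have h1 : u ∈ cls ω W v \ I := ⟨hu, huI⟩
  rw [hCC] at h1
  rw [cls_eq hu, cls_eq h1.1]

theorem Cl_card {Ω : Finset (ℤ × ℤ)} (hω : ∀ e ∈ ω, ∀ v ∈ e, v ∈ Ω)
    (hW : ∀ v ∈ W, v ∈ Ω) (hI : ∀ v ∈ I, v ∈ Ω)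
    (loc : ∀ e ∈ ω, ∀ v ∈ I, v ∈ e → e ∈ G) (wI : ∀ v ∈ W, v ∉ I) :
    (Cl Ω W ω).ncard = (OO Ω W I ω).ncard + (Inn (ω ∩ G) I).ncard := by
  have h1 : Cl Ω W ω = {C | C ∈ Cl Ω W ω ∧ ¬ C ⊆ I} ∪ {C | C ∈ Cl Ω W ω ∧ C ⊆ I} := by
    ext C
    simp only [Set.mem_union, Set.mem_ofPred_eq]
    tauto
  have h2 : Disjoint {C | C ∈ Cl Ω W ω ∧ ¬ C ⊆ I} {C | C ∈ Cl Ω W ω ∧ C ⊆ I} := by
    rw [Set.disjoint_left]
    rintro C ⟨-, h⟩ ⟨-, h'⟩
    exact h h'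
  rw [← outer_card hω hW, ← inner_eq hI loc wI]
  conv_lhs => rw [h1]
  rw [Set.ncard_union_eq h2 ((Cl_finite Ω W ω).subset fun C h => h.1)
    ((Cl_finite Ω W ω).subset fun C h => h.1)]

theorem OO_eq {Ω : Finset (ℤ × ℤ)} (h : Surg ω ω' G W I) (h' : Surg ω' ω G W I) :
    OO Ω W I ω = OO Ω W I ω' := by
  unfold OO
  ext S
  simp only [Set.mem_ofPred_eq]
  refine exists_congr fun v => and_congr_right fun _ => and_congr_right fun hvI => ?_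
  have : {u | u ∉ I ∧ Conn ω W v u} = {u | u ∉ I ∧ Conn ω' W v u} := by
    ext u
    exact and_congr_right fun hu => h.iff h' hvI hu
  rw [this]

/-! ### translations -/

/-- translation of edges -/
def tS (z : ℤ × ℤ) (F : Finset (Sym2 (ℤ × ℤ))) : Finset (Sym2 (ℤ × ℤ)) :=
  F.image (Sym2.map (z + ·))

theorem map_inj (z : ℤ × ℤ) : Function.Injective (Sym2.map (z + ·) : Sym2 (ℤ × ℤ) → _) :=
  Sym2.map.injective (add_right_injective z)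

theorem tS_card (z : ℤ × ℤ) (F : Finset (Sym2 (ℤ × ℤ))) : (tS z F).card = F.card :=
  Finset.card_image_of_injective _ (map_inj z)

theorem tS_mono (z : ℤ × ℤ) {F F' : Finset (Sym2 (ℤ × ℤ))} (h : F ⊆ F') : tS z F ⊆ tS z F' :=
  Finset.image_subset_image h

theorem tS_neg (z : ℤ × ℤ) (F : Finset (Sym2 (ℤ × ℤ))) : tS (-z) (tS z F) = F := by
  unfold tS
  rw [Finset.image_image]
  have : (Sym2.map (-z + ·) ∘ Sym2.map (z + ·) : Sym2 (ℤ × ℤ) → _) = id := by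
    rw [← Sym2.map_comp]
    have : ((-z + ·) ∘ (z + ·) : ℤ × ℤ → ℤ × ℤ) = id := by
      funext x
      simp
    rw [this, Sym2.map_id]
  rw [this, Finset.image_id]

theorem conn_shift (z : ℤ × ℤ) {F : Finset (Sym2 (ℤ × ℤ))} {u v : ℤ × ℤ}
    (h : Conn F ∅ u v) : Conn (tS z F) ∅ (z + u) (z + v) := by
  induction h with
  | refl => exact Relation.ReflTransGen.refl
  | tail _ hs ih =>
    refine ih.tail ?_
    rcases hs with hab | hab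
    · left
      exact Finset.mem_image.2 ⟨_, hab, rfl⟩
    · exact absurd hab.1 (Set.notMem_empty _)

theorem conn_shift_iff (z : ℤ × ℤ) {F : Finset (Sym2 (ℤ × ℤ))} {u v : ℤ × ℤ} :
    Conn (tS z F) ∅ (z + u) (z + v) ↔ Conn F ∅ u v := by
  refine ⟨fun h => ?_, conn_shift z⟩
  have h1 := conn_shift (-z) h
  rwa [tS_neg, neg_add_cancel_left, neg_add_cancel_left] at h1

theorem Inn_shift (z : ℤ × ℤ) (F : Finset (Sym2 (ℤ × ℤ))) (I : Set (ℤ × ℤ)) :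
    (Inn (tS z F) ((z + ·) '' I)).ncard = (Inn F I).ncard := by
  have hc : ∀ v, cls (tS z F) ∅ (z + v) = (z + ·) '' cls F ∅ v := by
    intro v
    ext u
    simp only [cls, Set.mem_ofPred_eq, Set.mem_image]
    constructor
    · intro h
      refine ⟨-z + u, ?_, add_neg_cancel_left z u⟩
      rw [← conn_shift_iff z, add_neg_cancel_left]
      exact h
    · rintro ⟨y, hy, rfl⟩
      exact conn_shift z hy
  have himg : Inn (tS z F) ((z + ·) '' I) = (fun C => (z + ·) '' C) '' Inn F I := by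
    ext C
    simp only [Inn, Set.mem_ofPred_eq]
    constructor
    · rintro ⟨h1, v, ⟨v, hv, rfl⟩, rfl⟩
      simp only [hc] at h1 ⊢
      exact ⟨cls F ∅ v, ⟨(Set.image_subset_image_iff (add_right_injective z)).1 h1, v, hv, rfl⟩,
        rfl⟩
    · rintro ⟨C, ⟨h1, v, hv, rfl⟩, rfl⟩
      exact ⟨Set.image_mono h1, z + v, ⟨v, hv, rfl⟩, (hc v).symm⟩
  rw [himg, Set.ncard_image_of_injective]
  exact (add_right_injective z).image_injective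

end

end H726.FK
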