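import Pool.Agent.H726.GB.FK

/-!
# Local balance of edge patterns along the wired cluster of the random-cluster model
-/

set_option autoImplicit false

namespace H726.FK

open Finset
open scoped Classical

noncomputable section

/-- replace the configuration in the window `z + Λ` by `z + F` -/
def put (Λ F : Finset (Sym2 (ℤ × ℤ))) (z : ℤ × ℤ) (ω : Finset (Sym2 (ℤ × ℤ))) :
    Finset (Sym2 (ℤ × ℤ)) := (ω \ tS z Λ) ∪ tS z F

/-- allowed places -/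
def Val (Ω : Finset (ℤ × ℤ)) (E : Finset (Sym2 (ℤ × ℤ))) (W : Set (ℤ × ℤ))
    (Λ : Finset (Sym2 (ℤ × ℤ))) (I : Finset (ℤ × ℤ)) (z : ℤ × ℤ) : Prop :=
  tS z Λ ⊆ E ∧ (∀ v ∈ I, z + v ∈ Ω ∧ z + v ∉ W) ∧ ∀ e ∈ E, ∀ v ∈ I, z + v ∈ e → e ∈ tS z Λ

/-- `y` is in the wired cluster -/
def InC (ω : Finset (Sym2 (ℤ × ℤ))) (W : Set (ℤ × ℤ)) (y : ℤ × ℤ) : Prop :=
  ∃ u ∈ W, Conn ω W u y

/-- the pattern `A` occurs at `z` -/
def Occ (Ω : Finset (ℤ × ℤ)) (E : Finset (Sym2 (ℤ × ℤ))) (W : Set (ℤ × ℤ))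
    (Λ : Finset (Sym2 (ℤ × ℤ))) (I J₁ J₂ : Finset (ℤ × ℤ)) (A ω : Finset (Sym2 (ℤ × ℤ)))
    (z : ℤ × ℤ) : Prop :=
  Val Ω E W Λ I z ∧ ω ∩ tS z Λ = tS z A ∧ (∀ v ∈ J₁, InC ω W (z + v)) ∧
    ∀ v ∈ J₂, ¬ InC ω W (z + v)

/-- the assumptions on the patterns -/
structure OK (Λ A B : Finset (Sym2 (ℤ × ℤ))) (I J₁ J₂ : Finset (ℤ × ℤ)) : Prop where
  hA : A ⊆ Λ
  hB : B ⊆ Λ
  con : ∀ u v, u ∉ I → v ∉ I → (Conn A ∅ u v ↔ Conn B ∅ u v)
  j₁ : ∀ v ∈ J₁, v ∉ I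
  j₂ : ∀ v ∈ J₂, v ∉ I

variable {Ω : Finset (ℤ × ℤ)} {E : Finset (Sym2 (ℤ × ℤ))} {W : Set (ℤ × ℤ)}
  {Λ A B ω : Finset (Sym2 (ℤ × ℤ))} {I J₁ J₂ : Finset (ℤ × ℤ)} {z : ℤ × ℤ}

theorem OK.symm (h : OK Λ A B I J₁ J₂) : OK Λ B A I J₁ J₂ :=
  ⟨h.hB, h.hA, fun u v hu hv => (h.con u v hu hv).symm, h.j₁, h.j₂⟩

theorem put_inter (hB : B ⊆ Λ) : put Λ B z ω ∩ tS z Λ = tS z B := by
  have h := tS_mono z hB
  ext e
  unfold put
  simp only [Finset.mem_inter, Finset.mem_union, Finset.mem_sdiff]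
  constructor
  · rintro ⟨h1 | h1, h2⟩
    · exact absurd h2 h1.2
    · exact h1
  · intro h1
    exact ⟨Or.inr h1, h h1⟩

theorem put_put (hB : B ⊆ Λ) : put Λ A z (put Λ B z ω) = put Λ A z ω := by
  have h := tS_mono z hB
  ext e
  unfold put
  simp only [Finset.mem_union, Finset.mem_sdiff]
  constructor
  · rintro (⟨h1 | h1, h2⟩ | h1)
    · exact Or.inl ⟨h1.1, h2⟩
    · exact absurd (h h1) h2
    · exact Or.inr h1
  · rintro (⟨h1, h2⟩ | h1)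
    · exact Or.inl ⟨Or.inl ⟨h1, h2⟩, h2⟩
    · exact Or.inr h1

theorem put_self (h : ω ∩ tS z Λ = tS z A) : put Λ A z ω = ω := by
  unfold put
  rw [← h]
  ext e
  simp only [Finset.mem_union, Finset.mem_sdiff, Finset.mem_inter]
  tauto

theorem put_sub (hω : ω ⊆ E) (hΛ : tS z Λ ⊆ E) (hB : B ⊆ Λ) : put Λ B z ω ⊆ E := by
  unfold put
  exact Finset.union_subset (Finset.sdiff_subset.trans hω) ((tS_mono z hB).trans hΛ)

theorem surg (h : OK Λ A B I J₁ J₂) (hv : Val Ω E W Λ I z) (hω : ω ⊆ E)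
    (ho : ω ∩ tS z Λ = tS z A) :
    Surg ω (put Λ B z ω) (tS z Λ) W ((z + ·) '' (I : Set (ℤ × ℤ))) := by
  obtain ⟨h1, h2, h3⟩ := hv
  refine ⟨?_, ?_, ?_, ?_⟩
  · intro e he
    unfold put
    simp only [Finset.mem_union, Finset.mem_sdiff]
    constructor
    · intro h4
      exact Or.inl ⟨h4, he⟩
    · rintro (h4 | h4)
      · exact h4.1
      · exact absurd (tS_mono z h.hB h4) he
  · rintro e he _ ⟨v, hv, rfl⟩ hve
    exact h3 e (hω he) v hv hve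
  · rintro _ hw ⟨v, hv, rfl⟩
    exact (h2 v hv).2 hw
  · intro u v hu hv huv
    rw [ho] at huv
    rw [put_inter h.hB]
    have e1 : u = z + (-z + u) := by simp
    have e2 : v = z + (-z + v) := by simp
    rw [e1, e2, conn_shift_iff] at huv ⊢
    refine (h.con _ _ ?_ ?_).1 huv
    · intro hc
      exact hu ⟨-z + u, hc, by simp⟩
    · intro hc
      exact hv ⟨-z + v, hc, by simp⟩

theorem surg' (h : OK Λ A B I J₁ J₂) (hv : Val Ω E W Λ I z) (hω : ω ⊆ E)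
    (ho : ω ∩ tS z Λ = tS z A) :
    Surg (put Λ B z ω) ω (tS z Λ) W ((z + ·) '' (I : Set (ℤ × ℤ))) := by
  have h1 := surg h.symm hv (put_sub hω hv.1 h.hB) (put_inter h.hB)
  rwa [put_put h.hB, put_self ho] at h1

theorem inC_iff (h : OK Λ A B I J₁ J₂) (hv : Val Ω E W Λ I z) (hω : ω ⊆ E)
    (ho : ω ∩ tS z Λ = tS z A) {y : ℤ × ℤ} (hy : ∀ v ∈ I, y ≠ z + v) :
    InC ω W y ↔ InC (put Λ B z ω) W y := by
  have hy' : y ∉ (z + ·) '' (I : Set (ℤ × ℤ)) := by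
    rintro ⟨v, hv, rfl⟩
    exact hy v hv rfl
  unfold InC
  refine exists_congr fun u => and_congr_right fun hu => ?_
  exact (surg h hv hω ho).iff (surg' h hv hω ho) ((surg h hv hω ho).wI u hu) hy'

/-- relevant differences -/
def Dl (Λ : Finset (Sym2 (ℤ × ℤ))) (I J₁ J₂ : Finset (ℤ × ℤ)) : Finset (ℤ × ℤ) :=
  ((Λ.biUnion (fun e => e.toFinset) ∪ I ∪ J₁ ∪ J₂) ×ˢ
    (Λ.biUnion (fun e => e.toFinset) ∪ I ∪ J₁ ∪ J₂)).image (fun p => p.2 - p.1)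

theorem mem_Dl {a b : ℤ × ℤ} (ha : a ∈ Λ.biUnion (fun e => e.toFinset) ∪ I ∪ J₁ ∪ J₂)
    (hb : b ∈ Λ.biUnion (fun e => e.toFinset) ∪ I ∪ J₁ ∪ J₂) : b - a ∈ Dl Λ I J₁ J₂ :=
  Finset.mem_image.2 ⟨(a, b), Finset.mem_product.2 ⟨ha, hb⟩, rfl⟩

theorem far {z' : ℤ × ℤ} (h : z' ∉ (Dl Λ I J₁ J₂).image (z + ·)) :
    (∀ e ∈ tS z' Λ, e ∉ tS z Λ) ∧ (∀ v ∈ J₁, ∀ i ∈ I, z' + v ≠ z + i) ∧
      ∀ v ∈ J₂, ∀ i ∈ I, z' + v ≠ z + i := by
  have key : ∀ a b : ℤ × ℤ, a ∈ Λ.biUnion (fun e => e.toFinset) ∪ I ∪ J₁ ∪ J₂ →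
      b ∈ Λ.biUnion (fun e => e.toFinset) ∪ I ∪ J₁ ∪ J₂ → z' + a ≠ z + b := by
    intro a b ha hb hab
    apply h
    refine Finset.mem_image.2 ⟨b - a, mem_Dl ha hb, ?_⟩
    have : z + (b - a) = (z + b) - a := by abel
    rw [this, ← hab]
    abel
  refine ⟨?_, ?_, ?_⟩
  · intro e he he'
    obtain ⟨e1, h1, rfl⟩ := Finset.mem_image.1 he
    obtain ⟨e2, h2, h3⟩ := Finset.mem_image.1 he'
    induction e1 using Sym2.ind with
    | _ a a' =>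
      have h4 : z' + a ∈ Sym2.map (z + ·) e2 := by
        rw [h3]
        exact Sym2.mem_map.2 ⟨a, Sym2.mem_mk_left _ _, rfl⟩
      obtain ⟨b, hb, hb2⟩ := Sym2.mem_map.1 h4
      refine key a b ?_ ?_ hb2.symm
      · simp only [Finset.mem_union, Finset.mem_biUnion]
        exact Or.inl (Or.inl (Or.inl ⟨_, h1, Sym2.mem_toFinset.2 (Sym2.mem_mk_left _ _)⟩))
      · simp only [Finset.mem_union, Finset.mem_biUnion]
        exact Or.inl (Or.inl (Or.inl ⟨_, h2, Sym2.mem_toFinset.2 hb⟩))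
  · intro v hv i hi
    refine key v i ?_ ?_
    · simp only [Finset.mem_union]; tauto
    · simp only [Finset.mem_union]; tauto
  · intro v hv i hi
    refine key v i ?_ ?_
    · simp only [Finset.mem_union]; tauto
    · simp only [Finset.mem_union]; tauto

/-- transfer of the occurrences at the place of the move -/
theorem occ_self (h : OK Λ A B I J₁ J₂) (hω : ω ⊆ E) (ho : Occ Ω E W Λ I J₁ J₂ A ω z) :
    Occ Ω E W Λ I J₁ J₂ B (put Λ B z ω) z := by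
  obtain ⟨h1, h2, h3, h4⟩ := ho
  refine ⟨h1, put_inter h.hB, fun v hv => ?_, fun v hv => ?_⟩
  · rw [← inC_iff h h1 hω h2 fun i hi hc => h.j₁ v hv (by rwa [add_right_injective z hc])]
    exact h3 v hv
  · rw [← inC_iff h h1 hω h2 fun i hi hc => h.j₂ v hv (by rwa [add_right_injective z hc])]
    exact h4 v hv

/-- transfer of the occurrences far from the place of the move -/
theorem occ_far (h : OK Λ A B I J₁ J₂) (hω : ω ⊆ E) (hz : Val Ω E W Λ I z)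
    (hz2 : ω ∩ tS z Λ = tS z A) {z' : ℤ × ℤ} (hf : z' ∉ (Dl Λ I J₁ J₂).image (z + ·))
    (F : Finset (Sym2 (ℤ × ℤ))) :
    Occ Ω E W Λ I J₁ J₂ F ω z' ↔ Occ Ω E W Λ I J₁ J₂ F (put Λ B z ω) z' := by
  obtain ⟨f1, f2, f3⟩ := far hf
  have h5 : put Λ B z ω ∩ tS z' Λ = ω ∩ tS z' Λ := by
    ext e
    simp only [Finset.mem_inter]
    refine and_congr_left fun he => ?_
    exact ((surg h hz hω hz2).same e (f1 e he)).symm
  unfold Occ
  refine and_congr_right fun _ => ?_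
  rw [h5]
  refine and_congr_right fun _ => ?_
  refine and_congr ?_ ?_
  · refine forall₂_congr fun v hv => ?_
    exact inC_iff h hz hω hz2 fun i hi => f2 v hv i hi
  · refine forall₂_congr fun v hv => ?_
    exact not_congr (inC_iff h hz hω hz2 fun i hi => f3 v hv i hi)

/-- the places -/
def pl (D : Finset (ℤ × ℤ)) (Ω : Finset (ℤ × ℤ)) (E : Finset (Sym2 (ℤ × ℤ))) (W : Set (ℤ × ℤ))
    (Λ : Finset (Sym2 (ℤ × ℤ))) (I J₁ J₂ : Finset (ℤ × ℤ)) (A ω : Finset (Sym2 (ℤ × ℤ))) :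
    Finset (ℤ × ℤ) := D.filter (Occ Ω E W Λ I J₁ J₂ A ω)

theorem pl_le (h : OK Λ A B I J₁ J₂) (hω : ω ⊆ E) (hz : Val Ω E W Λ I z)
    (hz2 : ω ∩ tS z Λ = tS z A) (D : Finset (ℤ × ℤ)) (F : Finset (Sym2 (ℤ × ℤ))) :
    (pl D Ω E W Λ I J₁ J₂ F ω).card ≤
      (pl D Ω E W Λ I J₁ J₂ F (put Λ B z ω)).card + ((Dl Λ I J₁ J₂).card + 1) ∧
    (pl D Ω E W Λ I J₁ J₂ F (put Λ B z ω)).card ≤
      (pl D Ω E W Λ I J₁ J₂ F ω).card + ((Dl Λ I J₁ J₂).card + 1) := by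
  have hc : ((Dl Λ I J₁ J₂).image (z + ·)).card ≤ (Dl Λ I J₁ J₂).card := Finset.card_image_le
  constructor
  · have h1 : pl D Ω E W Λ I J₁ J₂ F ω ⊆
        pl D Ω E W Λ I J₁ J₂ F (put Λ B z ω) ∪ (Dl Λ I J₁ J₂).image (z + ·) := by
      intro z' hz'
      unfold pl at hz' ⊢
      rw [Finset.mem_filter] at hz'
      rw [Finset.mem_union, Finset.mem_filter]
      by_cases hf : z' ∈ (Dl Λ I J₁ J₂).image (z + ·)
      · exact Or.inr hf
      · exact Or.inl ⟨hz'.1, (occ_far h hω hz hz2 hf F).1 hz'.2⟩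
    have h2 := (Finset.card_le_card h1).trans (Finset.card_union_le _ _)
    omega
  · have h1 : pl D Ω E W Λ I J₁ J₂ F (put Λ B z ω) ⊆
        pl D Ω E W Λ I J₁ J₂ F ω ∪ (Dl Λ I J₁ J₂).image (z + ·) := by
      intro z' hz'
      unfold pl at hz' ⊢
      rw [Finset.mem_filter] at hz'
      rw [Finset.mem_union, Finset.mem_filter]
      by_cases hf : z' ∈ (Dl Λ I J₁ J₂).image (z + ·)
      · exact Or.inr hf
      · exact Or.inl ⟨hz'.1, (occ_far h hω hz hz2 hf F).2 hz'.2⟩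
    have h2 := (Finset.card_le_card h1).trans (Finset.card_union_le _ _)
    omega

/-- the system of moves -/
def ex (h : OK Λ A B I J₁ J₂) (Ω : Finset (ℤ × ℤ)) (E : Finset (Sym2 (ℤ × ℤ)))
    (W : Set (ℤ × ℤ)) (D : Finset (ℤ × ℤ)) :
    H726.EX.Ex (Finset (Sym2 (ℤ × ℤ))) (ℤ × ℤ) where
  X := E.powerset
  S := pl D Ω E W Λ I J₁ J₂ A
  B := pl D Ω E W Λ I J₁ J₂ B
  ins ω z := put Λ B z ω
  rem ω z := put Λ A z ω
  C := (Dl Λ I J₁ J₂).card + 1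
  hC := by omega
  ins_X := by
    intro ω z hω hz
    rw [Finset.mem_powerset] at hω ⊢
    exact put_sub hω (Finset.mem_filter.1 hz).2.1.1 h.hB
  ins_B := by
    intro ω z hω hz
    rw [Finset.mem_powerset] at hω
    obtain ⟨h1, h2⟩ := Finset.mem_filter.1 hz
    exact Finset.mem_filter.2 ⟨h1, occ_self h hω h2⟩
  rem_ins := by
    intro ω z hω hz
    obtain ⟨h1, h2⟩ := Finset.mem_filter.1 hz
    show put Λ A z (put Λ B z ω) = ω
    rw [put_put h.hB, put_self h2.2.1]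
  rem_X := by
    intro ω z hω hz
    rw [Finset.mem_powerset] at hω ⊢
    exact put_sub hω (Finset.mem_filter.1 hz).2.1.1 h.hA
  rem_S := by
    intro ω z hω hz
    rw [Finset.mem_powerset] at hω
    obtain ⟨h1, h2⟩ := Finset.mem_filter.1 hz
    exact Finset.mem_filter.2 ⟨h1, occ_self h.symm hω h2⟩
  ins_rem := by
    intro ω z hω hz
    obtain ⟨h1, h2⟩ := Finset.mem_filter.1 hz
    show put Λ B z (put Λ A z ω) = ω
    rw [put_put h.hA, put_self h2.2.1]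
  chS := by
    intro ω z hω hz
    rw [Finset.mem_powerset] at hω
    obtain ⟨h1, h2⟩ := Finset.mem_filter.1 hz
    exact (pl_le h hω h2.1 h2.2.1 D A).1
  chB := by
    intro ω z hω hz
    rw [Finset.mem_powerset] at hω
    obtain ⟨h1, h2⟩ := Finset.mem_filter.1 hz
    exact (pl_le h hω h2.1 h2.2.1 D B).2

/-- the weight of a configuration -/
def wt (x q : ℝ) (Ω : Finset (ℤ × ℤ)) (W : Set (ℤ × ℤ)) (ω : Finset (Sym2 (ℤ × ℤ))) : ℝ :=
  x ^ ω.card * q ^ (Cl Ω W ω).ncard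

/-- the weight of a pattern -/
def lw (x q : ℝ) (A : Finset (Sym2 (ℤ × ℤ))) (I : Finset (ℤ × ℤ)) : ℝ :=
  x ^ A.card * q ^ (Inn A (I : Set (ℤ × ℤ))).ncard

theorem card_put (hB : B ⊆ Λ) (ho : ω ∩ tS z Λ = tS z A) :
    (put Λ B z ω).card + A.card = ω.card + B.card := by
  have h1 : (put Λ B z ω).card = (ω \ tS z Λ).card + B.card := by
    unfold put
    rw [Finset.card_union_of_disjoint, tS_card]
    rw [Finset.disjoint_left]
    intro e he he'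
    exact (Finset.mem_sdiff.1 he).2 (tS_mono z hB he')
  have h2 : ω.card = (ω \ tS z Λ).card + A.card := by
    rw [← tS_card z A, ← ho]
    exact (Finset.card_sdiff_add_card_inter ω (tS z Λ)).symm
  omega

theorem wt_put {x q : ℝ} (h : OK Λ A B I J₁ J₂)
    (hE : ∀ e ∈ E, ∀ v ∈ e, v ∈ Ω) (hW : ∀ v ∈ W, v ∈ Ω) (hω : ω ⊆ E)
    (hz : Val Ω E W Λ I z) (ho : ω ∩ tS z Λ = tS z A) :
    wt x q Ω W (put Λ B z ω) * lw x q A I = wt x q Ω W ω * lw x q B I := by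
  have s1 := surg h hz hω ho
  have s2 := surg' h hz hω ho
  have hω' : put Λ B z ω ⊆ E := put_sub hω hz.1 h.hB
  have hI : ∀ v ∈ (z + ·) '' (I : Set (ℤ × ℤ)), v ∈ Ω := by
    rintro _ ⟨v, hv, rfl⟩
    exact (hz.2.1 v hv).1
  have c1 := Cl_card (ω := ω) (fun e he v hv => hE e (hω he) v hv) hW hI s1.loc s1.wI
  have c2 := Cl_card (ω := put Λ B z ω) (fun e he v hv => hE e (hω' he) v hv) hW hI s2.loc s2.wI
  rw [ho, Inn_shift] at c1
  rw [put_inter h.hB, Inn_shift, ← OO_eq s1 s2] at c2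
  have c3 := card_put h.hB ho
  unfold wt lw
  have e1 : x ^ (put Λ B z ω).card * q ^ (Cl Ω W (put Λ B z ω)).ncard *
      (x ^ A.card * q ^ (Inn A (I : Set (ℤ × ℤ))).ncard) =
      x ^ ((put Λ B z ω).card + A.card) *
        q ^ ((Cl Ω W (put Λ B z ω)).ncard + (Inn A (I : Set (ℤ × ℤ))).ncard) := by
    rw [pow_add, pow_add]; ring
  have e2 : x ^ ω.card * q ^ (Cl Ω W ω).ncard *
      (x ^ B.card * q ^ (Inn B (I : Set (ℤ × ℤ))).ncard) =
      x ^ (ω.card + B.card) *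
        q ^ ((Cl Ω W ω).ncard + (Inn B (I : Set (ℤ × ℤ))).ncard) := by
    rw [pow_add, pow_add]; ring
  rw [e1, e2, c3]
  congr 2
  omega

/-- **local balance in the random-cluster model** -/
theorem fk_balance {x q : ℝ} (hx : 0 < x) (hq : 0 < q) (h : OK Λ A B I J₁ J₂) :
    ∃ c : ℝ, 0 < c ∧ ∀ (Ω : Finset (ℤ × ℤ)) (E : Finset (Sym2 (ℤ × ℤ))) (W : Set (ℤ × ℤ)),
      (∀ e ∈ E, ∀ v ∈ e, v ∈ Ω) → (∀ v ∈ W, v ∈ Ω) → ∀ (D : Finset (ℤ × ℤ)) (t : ℝ), 0 ≤ t →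
      ∑ ω ∈ E.powerset.filter (fun ω =>
        t * Real.sqrt ((pl D Ω E W Λ I J₁ J₂ A ω).card + (pl D Ω E W Λ I J₁ J₂ B ω).card) <
        |lw x q B I * (pl D Ω E W Λ I J₁ J₂ A ω).card -
          lw x q A I * (pl D Ω E W Λ I J₁ J₂ B ω).card|), wt x q Ω W ω ≤
      2 * Real.exp 1 * D.card * Real.exp (-(c * t ^ 2)) * ∑ ω ∈ E.powerset, wt x q Ω W ω := by
  have hA0 : 0 < lw x q A I := by unfold lw; positivity
  have hB0 : 0 < lw x q B I := by unfold lw; positivity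
  obtain ⟨r, hr⟩ : ∃ r : ℝ, r = lw x q B I / lw x q A I := ⟨_, rfl⟩
  have hr0 : 0 < r := by rw [hr]; positivity
  have hk := H726.EX.kap2_pos (C := (Dl Λ I J₁ J₂).card + 1) (by omega) hr0
  refine ⟨H726.EX.kap2 ((Dl Λ I J₁ J₂).card + 1) r / lw x q A I ^ 2, by positivity, ?_⟩
  intro Ω E W hE hW D t ht
  have hwt : ∀ ω, 0 ≤ wt x q Ω W ω := fun ω => by unfold wt; positivity
  have hf : (ex h Ω E W D).Wt (wt x q Ω W) r := by
    refine ⟨fun ω _ => hwt ω, fun ω z hω hz => ?_⟩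
    have hω' : ω ⊆ E := Finset.mem_powerset.1 hω
    obtain ⟨-, h2⟩ := Finset.mem_filter.1 hz
    have h3 := wt_put (x := x) (q := q) h hE hW hω' h2.1 h2.2.1
    show wt x q Ω W (put Λ B z ω) = r * wt x q Ω W ω
    rw [hr, div_mul_eq_mul_div, eq_div_iff hA0.ne', h3]
    ring
  have hb := H726.EX.balance hf hr0 D.card (fun ω _ =>
    ⟨Finset.card_filter_le _ _, Finset.card_filter_le _ _⟩) (t := t / lw x q A I)
    (by positivity)
  have e1 : H726.EX.kap2 (ex h Ω E W D).C r * (t / lw x q A I) ^ 2 =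
      H726.EX.kap2 ((Dl Λ I J₁ J₂).card + 1) r / lw x q A I ^ 2 * t ^ 2 := by
    show H726.EX.kap2 ((Dl Λ I J₁ J₂).card + 1) r * (t / lw x q A I) ^ 2 = _
    field_simp
  rw [e1] at hb
  refine le_trans (le_of_eq ?_) hb
  apply Finset.sum_congr _ fun _ _ => rfl
  apply Finset.filter_congr
  intro ω _
  show _ ↔ t / lw x q A I * Real.sqrt ((pl D Ω E W Λ I J₁ J₂ A ω).card +
    (pl D Ω E W Λ I J₁ J₂ B ω).card) < |r * (pl D Ω E W Λ I J₁ J₂ A ω).card -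
      (pl D Ω E W Λ I J₁ J₂ B ω).card|
  have e2 : lw x q B I * ((pl D Ω E W Λ I J₁ J₂ A ω).card : ℝ) -
      lw x q A I * (pl D Ω E W Λ I J₁ J₂ B ω).card =
      lw x q A I * (r * (pl D Ω E W Λ I J₁ J₂ A ω).card -
        (pl D Ω E W Λ I J₁ J₂ B ω).card) := by
    rw [hr]
    field_simp
  rw [e2, abs_mul, abs_of_pos hA0, div_mul_eq_mul_div, div_lt_iff₀ hA0, mul_comm (lw x q A I)]

end

end H726.FK
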