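import Pool.Agent.H726.GB.FK2

/-!
# Local balance of edge patterns given the partition into clusters
-/

set_option autoImplicit false

namespace H726.FK

open Finset
open scoped Classical

noncomputable section

variable {E : Finset (Sym2 (ℤ × ℤ))} {W : Set (ℤ × ℤ)} {Λ A B ω : Finset (Sym2 (ℤ × ℤ))}
  {z : ℤ × ℤ}

/-- the assumptions on the patterns -/
structure OK2 (Λ A B : Finset (Sym2 (ℤ × ℤ))) : Prop where
  hA : A ⊆ Λ
  hB : B ⊆ Λ
  con : ∀ u v, Conn A ∅ u v ↔ Conn B ∅ u v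

theorem OK2.symm (h : OK2 Λ A B) : OK2 Λ B A := ⟨h.hB, h.hA, fun u v => (h.con u v).symm⟩

theorem OK2.ok (h : OK2 Λ A B) : OK Λ A B ∅ ∅ ∅ :=
  ⟨h.hA, h.hB, fun u v _ _ => h.con u v, by simp, by simp⟩

theorem val0 (hz : tS z Λ ⊆ E) (Ω : Finset (ℤ × ℤ)) : Val Ω E W Λ ∅ z :=
  ⟨hz, by simp, by simp⟩

theorem conn_put (h : OK2 Λ A B) (hω : ω ⊆ E) (hz : tS z Λ ⊆ E) (ho : ω ∩ tS z Λ = tS z A) :
    Conn (put Λ B z ω) W = Conn ω W := by
  have s1 := surg h.ok (val0 (W := W) hz ∅) hω ho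
  have s2 := surg' h.ok (val0 (W := W) hz ∅) hω ho
  funext u v
  apply propext
  exact (s1.iff s2 (by simp) (by simp)).symm

/-- the places -/
def pl2 (D : (ℤ × ℤ → ℤ × ℤ → Prop) → Finset (ℤ × ℤ)) (E : Finset (Sym2 (ℤ × ℤ)))
    (W : Set (ℤ × ℤ)) (Λ A ω : Finset (Sym2 (ℤ × ℤ))) : Finset (ℤ × ℤ) :=
  (D (Conn ω W)).filter (fun z => tS z Λ ⊆ E ∧ ω ∩ tS z Λ = tS z A)

theorem inter_far (h : OK2 Λ A B) (hω : ω ⊆ E) (hz : tS z Λ ⊆ E) (ho : ω ∩ tS z Λ = tS z A)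
    {z' : ℤ × ℤ} (hf : z' ∉ (Dl Λ ∅ ∅ ∅).image (z + ·)) :
    put Λ B z ω ∩ tS z' Λ = ω ∩ tS z' Λ := by
  obtain ⟨f1, -, -⟩ := far hf
  ext e
  simp only [Finset.mem_inter]
  refine and_congr_left fun he => ?_
  exact ((surg h.ok (val0 (W := ∅) hz ∅) hω ho).same e (f1 e he)).symm

theorem pl2_le (h : OK2 Λ A B) (hω : ω ⊆ E) (hz : tS z Λ ⊆ E) (ho : ω ∩ tS z Λ = tS z A)
    (D : (ℤ × ℤ → ℤ × ℤ → Prop) → Finset (ℤ × ℤ)) (F : Finset (Sym2 (ℤ × ℤ))) :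
    (pl2 D E W Λ F ω).card ≤ (pl2 D E W Λ F (put Λ B z ω)).card + ((Dl Λ ∅ ∅ ∅).card + 1) ∧
    (pl2 D E W Λ F (put Λ B z ω)).card ≤ (pl2 D E W Λ F ω).card + ((Dl Λ ∅ ∅ ∅).card + 1) := by
  have hc : ((Dl Λ ∅ ∅ ∅).image (z + ·)).card ≤ (Dl Λ ∅ ∅ ∅).card := Finset.card_image_le
  have hcon : Conn (put Λ B z ω) W = Conn ω W := conn_put h hω hz ho
  have key : ∀ z', z' ∉ (Dl Λ ∅ ∅ ∅).image (z + ·) →
      (z' ∈ pl2 D E W Λ F ω ↔ z' ∈ pl2 D E W Λ F (put Λ B z ω)) := by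
    intro z' hf
    unfold pl2
    rw [Finset.mem_filter, Finset.mem_filter, hcon, inter_far h hω hz ho hf]
  constructor
  · have h1 : pl2 D E W Λ F ω ⊆
        pl2 D E W Λ F (put Λ B z ω) ∪ (Dl Λ ∅ ∅ ∅).image (z + ·) := by
      intro z' hz'
      rw [Finset.mem_union]
      by_cases hf : z' ∈ (Dl Λ ∅ ∅ ∅).image (z + ·)
      · exact Or.inr hf
      · exact Or.inl ((key z' hf).1 hz')
    have h2 := (Finset.card_le_card h1).trans (Finset.card_union_le _ _)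
    omega
  · have h1 : pl2 D E W Λ F (put Λ B z ω) ⊆
        pl2 D E W Λ F ω ∪ (Dl Λ ∅ ∅ ∅).image (z + ·) := by
      intro z' hz'
      rw [Finset.mem_union]
      by_cases hf : z' ∈ (Dl Λ ∅ ∅ ∅).image (z + ·)
      · exact Or.inr hf
      · exact Or.inl ((key z' hf).2 hz')
    have h2 := (Finset.card_le_card h1).trans (Finset.card_union_le _ _)
    omega

theorem pl2_self (h : OK2 Λ A B) (hω : ω ⊆ E)
    {D : (ℤ × ℤ → ℤ × ℤ → Prop) → Finset (ℤ × ℤ)} (hz : z ∈ pl2 D E W Λ A ω) :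
    z ∈ pl2 D E W Λ B (put Λ B z ω) := by
  unfold pl2 at hz ⊢
  rw [Finset.mem_filter] at hz ⊢
  rw [conn_put h hω hz.2.1 hz.2.2]
  exact ⟨hz.1, hz.2.1, put_inter h.hB⟩

/-- the system of moves -/
def ex2 (h : OK2 Λ A B) (E : Finset (Sym2 (ℤ × ℤ))) (W : Set (ℤ × ℤ))
    (D : (ℤ × ℤ → ℤ × ℤ → Prop) → Finset (ℤ × ℤ)) :
    H726.EX.Ex (Finset (Sym2 (ℤ × ℤ))) (ℤ × ℤ) where
  X := E.powerset
  S := pl2 D E W Λ A
  B := pl2 D E W Λ B
  ins ω z := put Λ B z ω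
  rem ω z := put Λ A z ω
  C := (Dl Λ ∅ ∅ ∅).card + 1
  hC := by omega
  ins_X := by
    intro ω z hω hz
    rw [Finset.mem_powerset] at hω ⊢
    exact put_sub hω (Finset.mem_filter.1 hz).2.1 h.hB
  ins_B := by
    intro ω z hω hz
    rw [Finset.mem_powerset] at hω
    exact pl2_self h hω hz
  rem_ins := by
    intro ω z hω hz
    obtain ⟨h1, h2⟩ := Finset.mem_filter.1 hz
    show put Λ A z (put Λ B z ω) = ω
    rw [put_put h.hB, put_self h2.2]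
  rem_X := by
    intro ω z hω hz
    rw [Finset.mem_powerset] at hω ⊢
    exact put_sub hω (Finset.mem_filter.1 hz).2.1 h.hA
  rem_S := by
    intro ω z hω hz
    rw [Finset.mem_powerset] at hω
    exact pl2_self h.symm hω hz
  ins_rem := by
    intro ω z hω hz
    obtain ⟨h1, h2⟩ := Finset.mem_filter.1 hz
    show put Λ B z (put Λ A z ω) = ω
    rw [put_put h.hA, put_self h2.2]
  chS := by
    intro ω z hω hz
    rw [Finset.mem_powerset] at hω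
    obtain ⟨h1, h2⟩ := Finset.mem_filter.1 hz
    exact (pl2_le h hω h2.1 h2.2 D A).1
  chB := by
    intro ω z hω hz
    rw [Finset.mem_powerset] at hω
    obtain ⟨h1, h2⟩ := Finset.mem_filter.1 hz
    exact (pl2_le h hω h2.1 h2.2 D B).2

/-- **local balance given the partition into clusters** -/
theorem part_balance {x : ℝ} (hx : 0 < x) (h : OK2 Λ A B) :
    ∃ c : ℝ, 0 < c ∧ ∀ (E : Finset (Sym2 (ℤ × ℤ))) (W : Set (ℤ × ℤ))
      (g : (ℤ × ℤ → ℤ × ℤ → Prop) → ℝ), (∀ ρ, 0 ≤ g ρ) →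
      ∀ (D : (ℤ × ℤ → ℤ × ℤ → Prop) → Finset (ℤ × ℤ)) (m : ℕ), (∀ ρ, (D ρ).card ≤ m) →
      ∀ t : ℝ, 0 ≤ t →
      ∑ ω ∈ E.powerset.filter (fun ω =>
        t * Real.sqrt ((pl2 D E W Λ A ω).card + (pl2 D E W Λ B ω).card) <
        |x ^ B.card * (pl2 D E W Λ A ω).card - x ^ A.card * (pl2 D E W Λ B ω).card|),
        x ^ ω.card * g (Conn ω W) ≤
      2 * Real.exp 1 * m * Real.exp (-(c * t ^ 2)) *
        ∑ ω ∈ E.powerset, x ^ ω.card * g (Conn ω W) := by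
  have hA0 : 0 < x ^ A.card := by positivity
  have hB0 : 0 < x ^ B.card := by positivity
  obtain ⟨r, hr⟩ : ∃ r : ℝ, r = x ^ B.card / x ^ A.card := ⟨_, rfl⟩
  have hr0 : 0 < r := by rw [hr]; positivity
  have hk := H726.EX.kap2_pos (C := (Dl Λ ∅ ∅ ∅).card + 1) (by omega) hr0
  refine ⟨H726.EX.kap2 ((Dl Λ ∅ ∅ ∅).card + 1) r / (x ^ A.card) ^ 2, by positivity, ?_⟩
  intro E W g hg D m hm t ht
  have hf : (ex2 h E W D).Wt (fun ω => x ^ ω.card * g (Conn ω W)) r := by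
    refine ⟨fun ω _ => mul_nonneg (by positivity) (hg _), fun ω z hω hz => ?_⟩
    have hω' : ω ⊆ E := Finset.mem_powerset.1 hω
    obtain ⟨-, h2⟩ := Finset.mem_filter.1 hz
    show x ^ (put Λ B z ω).card * g (Conn (put Λ B z ω) W) = r * (x ^ ω.card * g (Conn ω W))
    rw [conn_put h hω' h2.1 h2.2, ← mul_assoc]
    congr 1
    have h3 := card_put h.hB h2.2
    rw [hr, div_mul_eq_mul_div, eq_div_iff hA0.ne', ← pow_add, ← pow_add, h3, add_comm]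
  have hb := H726.EX.balance hf hr0 m (fun ω _ =>
    ⟨(Finset.card_filter_le _ _).trans (hm _), (Finset.card_filter_le _ _).trans (hm _)⟩)
    (t := t / x ^ A.card) (by positivity)
  have e1 : H726.EX.kap2 (ex2 h E W D).C r * (t / x ^ A.card) ^ 2 =
      H726.EX.kap2 ((Dl Λ ∅ ∅ ∅).card + 1) r / (x ^ A.card) ^ 2 * t ^ 2 := by
    show H726.EX.kap2 ((Dl Λ ∅ ∅ ∅).card + 1) r * (t / x ^ A.card) ^ 2 = _
    field_simp
  rw [e1] at hb
  refine le_trans (le_of_eq ?_) hb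
  apply Finset.sum_congr _ fun _ _ => rfl
  apply Finset.filter_congr
  intro ω _
  show _ ↔ t / x ^ A.card * Real.sqrt ((pl2 D E W Λ A ω).card +
    (pl2 D E W Λ B ω).card) < |r * (pl2 D E W Λ A ω).card - (pl2 D E W Λ B ω).card|
  have e2 : x ^ B.card * ((pl2 D E W Λ A ω).card : ℝ) -
      x ^ A.card * (pl2 D E W Λ B ω).card =
      x ^ A.card * (r * (pl2 D E W Λ A ω).card - (pl2 D E W Λ B ω).card) := by
    rw [hr]
    field_simp
  rw [e2, abs_mul, abs_of_pos hA0, div_mul_eq_mul_div, div_lt_iff₀ hA0, mul_comm (x ^ A.card)]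

end

end H726.FK
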