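import Pool.Agent.H726.GB.WinD

/-!
# Two patterns with the same ends: concentration for a planar lattice
-/

set_option autoImplicit false

namespace H726.GD

open Finset TH966.AK
open scoped Classical

noncomputable section

variable {d : ℕ} {A : Pt d → Pt d → Prop} {tr : Pt d → Prop}

/-- a lattice with vertex set `ℤ²`; the vectors `x` with `tr x` are allowed translations -/
structure Lat (A : (Pt d) → (Pt d) → Prop) (tr : (Pt d) → Prop) : Prop where
  step : ∀ p q, A p q → ∀ i, |p i - q i| ≤ 1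
  shift : ∀ x, tr x → ∀ p q, A p q → A (x + p) (x + q)

/-- size of a list of points -/
def sz (U : List (Pt d)) : ℕ := U.toFinset.sup (fun x => ∑ i, (x i).natAbs)

theorem sz_le {U : List (Pt d)} {x : (Pt d)} (hx : x ∈ U) (i : Fin d) : |x i| ≤ sz U := by
  have h : ∑ i, (x i).natAbs ≤ sz U :=
    Finset.le_sup (f := fun x : (Pt d) => ∑ i, (x i).natAbs) (List.mem_toFinset.2 hx)
  have h2 : (x i).natAbs ≤ ∑ i, (x i).natAbs :=
    Finset.single_le_sum (f := fun i => (x i).natAbs) (fun _ _ => Nat.zero_le _)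
      (Finset.mem_univ i)
  rw [Int.abs_eq_natAbs]
  omega

theorem Pr.map (hA : Lat A tr) {x : (Pt d)} (hx : tr x) {U U' : List (Pt d)} (h : Pr A U U') :
    Pr A (U.map (x + ·)) (U'.map (x + ·)) := by
  obtain ⟨h1, h2, h3, h4, h5, h6, h7, h8⟩ := h
  refine ⟨by simpa using h1, by simpa using h2, ?_, ?_, ?_, ?_, ?_, ?_⟩
  · rw [List.head?_map, List.head?_map, h3]
  · rw [List.getLast?_map, List.getLast?_map, h4]
  · exact h5.map (add_right_injective x)
  · exact h6.map (add_right_injective x)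
  · rw [List.isChain_map]
    exact h7.imp fun p q hpq => hA.shift x hx p q hpq
  · rw [List.isChain_map]
    exact h8.imp fun p q hpq => hA.shift x hx p q hpq

/-- the rule of all translates of a pair of patterns -/
def rl (hA : Lat A tr) (U U' : List (Pt d)) (h : Pr A U U') (hl : U.length ≤ U'.length) : Rl A where
  T V V' := ∃ x, tr x ∧ V = U.map (x + ·) ∧ V' = U'.map (x + ·)
  ρ := 2 * sz (U ++ U')
  k := U.length
  s := U'.length - U.length
  step := hA.step
  pair := by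
    rintro _ _ ⟨x, hx, rfl, rfl⟩
    exact h.map hA hx
  len := by
    rintro _ _ ⟨x, hx, rfl, rfl⟩
    refine ⟨List.length_map _, ?_⟩
    rw [List.length_map]
    omega
  loc := by
    rintro _ _ ⟨x, hx, rfl, rfl⟩ y hy z hz
    rw [← List.map_append, List.mem_map] at hy hz
    obtain ⟨y, hy, rfl⟩ := hy
    obtain ⟨z, hz, rfl⟩ := hz
    intro i
    have h1 := sz_le hy i
    have h2 := sz_le hz i
    simp only [Pi.add_apply, abs_le] at h1 h2 ⊢
    push_cast
    omega

/-- the number of places where the walk `w` contains the path `U` and all the points of `U'` outside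
of `U` are free -/
def NL (tr : (Pt d) → Prop) (U U' : List (Pt d)) (w : List (Pt d)) : ℕ :=
  Set.ncard {x : (Pt d) | tr x ∧ U.map (x + ·) <:+: w ∧ ∀ y ∈ U', y ∉ U → x + y ∉ w}

theorem free_map {U U' w : List (Pt d)} {x : (Pt d)} : Free (U.map (x + ·)) (U'.map (x + ·)) w ↔
    U.map (x + ·) <:+: w ∧ ∀ y ∈ U', y ∉ U → x + y ∉ w := by
  unfold Free
  refine and_congr Iff.rfl ?_
  constructor
  · intro h y hy hyU
    refine h (x + y) (List.mem_map.2 ⟨y, hy, rfl⟩) fun hc => hyU ?_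
    obtain ⟨z, hz, hz2⟩ := List.mem_map.1 hc
    have : z = y := add_right_injective x hz2
    rwa [← this]
  · intro h z hz hzU
    obtain ⟨y, hy, rfl⟩ := List.mem_map.1 hz
    exact h y hy fun hc => hzU (List.mem_map.2 ⟨y, hc, rfl⟩)

theorem map_inj {U U' : List (Pt d)} (hU : U ≠ []) :
    Function.Injective (fun x : (Pt d) => (U.map (x + ·), U'.map (x + ·))) := by
  intro x y hxy
  obtain ⟨p, U0, rfl⟩ := List.exists_cons_of_ne_nil hU
  simp only [List.map_cons, Prod.mk.injEq, List.cons.injEq] at hxy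
  exact add_left_injective p hxy.1.1

theorem card_S (hA : Lat A tr) (U U' : List (Pt d)) (h : Pr A U U') (hl : U.length ≤ U'.length)
    (w : List (Pt d)) : ((rl hA U U' h hl).sys.S w).card = NL tr U U' w := by
  unfold NL
  rw [← Set.ncard_coe_finset, ← Set.ncard_image_of_injective _ (map_inj (U' := U') h.1)]
  congr 1
  ext ⟨V, V'⟩
  rw [Finset.mem_coe, Set.mem_image]
  show (V, V') ∈ (rl hA U U' h hl).S w ↔ _
  rw [Rl.mem_S]
  constructor
  · rintro ⟨⟨x, hx, rfl, rfl⟩, h2⟩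
    exact ⟨x, ⟨hx, free_map.1 h2⟩, rfl⟩
  · rintro ⟨x, ⟨hx, h2⟩, h3⟩
    simp only [Prod.mk.injEq] at h3
    obtain ⟨rfl, rfl⟩ := h3
    exact ⟨⟨x, hx, rfl, rfl⟩, free_map.2 h2⟩

theorem card_B (hA : Lat A tr) (U U' : List (Pt d)) (h : Pr A U U') (hl : U.length ≤ U'.length)
    (w : List (Pt d)) : ((rl hA U U' h hl).sys.B w).card = NL tr U' U w := by
  unfold NL
  rw [← Set.ncard_coe_finset, ← Set.ncard_image_of_injective _ (map_inj (U' := U') h.1)]
  congr 1
  ext ⟨V, V'⟩
  rw [Finset.mem_coe, Set.mem_image]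
  show (V, V') ∈ (rl hA U U' h hl).B w ↔ _
  rw [Rl.mem_B]
  constructor
  · rintro ⟨⟨x, hx, rfl, rfl⟩, h2⟩
    exact ⟨x, ⟨hx, free_map.1 h2⟩, rfl⟩
  · rintro ⟨x, ⟨hx, h2⟩, h3⟩
    simp only [Prod.mk.injEq] at h3
    obtain ⟨rfl, rfl⟩ := h3
    exact ⟨⟨x, hx, rfl, rfl⟩, free_map.2 h2⟩

theorem B_le (Z : Rl A) (n : ℕ) (w : List (Pt d)) (hw : w ∈ Z.sys.K n) :
    (Z.sys.B w).card ≤ Z.sys.C * (n + 1) := by
  have hw' : w ∈ Kw A n := hw
  rw [Z.mem_K] at hw'
  show (Z.B w).card ≤ Z.CC * (n + 1)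
  have h1 : (Z.B w).card ≤ (w.toFinset.biUnion Z.cand).card := Finset.card_filter_le _ _
  have h2 := Finset.card_biUnion_le_card_mul w.toFinset Z.cand Z.c0 fun x _ => Z.card_cand x
  have h3 : w.toFinset.card ≤ n + 1 := (List.toFinset_card_le w).trans hw'.1.le
  have h4 : w.toFinset.card * Z.c0 ≤ (n + 1) * Z.c0 := Nat.mul_le_mul_right _ h3
  have h5 : Z.c0 ≤ Z.CC := by unfold Rl.CC; omega
  have h6 : (n + 1) * Z.c0 ≤ Z.CC * (n + 1) := by
    rw [mul_comm]; exact Nat.mul_le_mul_right _ h5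
  omega

/-- counting walks with a property -/
theorem count_filter (Z : Rl A) (n : ℕ) (Q : List (Pt d) → Prop) :
    ((Kw A n).filter Q).card = Set.ncard {f : Fin (n + 1) → Pt d |
      (f 0 = 0 ∧ Function.Injective f ∧ ∀ i : Fin n, A (f i.castSucc) (f i.succ)) ∧
        Q (List.ofFn f)} := by
  rw [← Set.ncard_image_of_injective _ List.ofFn_injective, ← Set.ncard_coe_finset]
  congr 1
  ext w
  rw [Finset.mem_coe, Finset.mem_filter, Z.mem_K, Set.mem_image]
  have key : ∀ f : Fin (n + 1) → Pt d, Walk A (List.ofFn f) ↔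
      f 0 = 0 ∧ Function.Injective f ∧ ∀ i : Fin n, A (f i.castSucc) (f i.succ) := by
    intro f
    unfold Walk
    rw [List.nodup_ofFn, List.isChain_ofFn]
    refine and_congr ?_ (and_congr Iff.rfl ?_)
    · rw [List.ofFn_succ]
      simp
    · constructor
      · intro h i
        exact h i.1 (by have := i.2; omega)
      · intro h i hi
        exact h ⟨i, by omega⟩
  constructor
  · rintro ⟨⟨h1, h2⟩, h3⟩
    have e : List.ofFn (fun i : Fin (n + 1) => w[i.1]'(by rw [h1]; exact i.2)) = w := by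
      apply List.ext_getElem
      · simp [h1]
      · intro i hi hi'
        rw [List.getElem_ofFn]
    refine ⟨_, ⟨?_, ?_⟩, e⟩
    · exact (key (fun i : Fin (n + 1) => w[i.1]'(by rw [h1]; exact i.2))).1 (by rw [e]; exact h2)
    · rw [e]; exact h3
  · rintro ⟨f, ⟨hf, hq⟩, rfl⟩
    exact ⟨⟨by simp, (key f).2 hf⟩, hq⟩

/-- the tail bound in terms of lists -/
theorem list_tail (hA : Lat A tr) {μ : ℝ} (hμ : 1 ≤ μ) (U U' : List (Pt d)) (h : Pr A U U') :
    ∃ c : ℝ, 0 < c ∧ ∀ (f : List (Pt d) → ℝ), (∀ w, 0 ≤ f w) →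
      (∀ w w' : List (Pt d), w.head? = w'.head? → w.getLast? = w'.getLast? → f w = f w') →
      ∀ (H : ℝ) (n : ℕ), 1 ≤ n → (∀ j ≤ 2 * n, ∑ w ∈ Kw A j, f w ≤ H * μ ^ j) → ∀ t : ℝ, 0 ≤ t →
      ∑ w ∈ (Kw A n).filter (fun w =>
        t ≤ |μ ^ U.length * NL tr U U' w - μ ^ U'.length * NL tr U' U w|), f w ≤
        2 * Real.exp 1 * H * μ ^ n * Real.exp (-(c * (t ^ 2 / n))) := by
  -- the case of a longer second pattern
  have key : ∀ U U' : List (Pt d), Pr A U U' → U.length ≤ U'.length →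
      ∃ c : ℝ, 0 < c ∧ ∀ (f : List (Pt d) → ℝ), (∀ w, 0 ≤ f w) →
      (∀ w w' : List (Pt d), w.head? = w'.head? → w.getLast? = w'.getLast? → f w = f w') →
      ∀ (H : ℝ) (n : ℕ), 1 ≤ n → (∀ j ≤ 2 * n, ∑ w ∈ Kw A j, f w ≤ H * μ ^ j) → ∀ t : ℝ, 0 ≤ t →
      ∑ w ∈ (Kw A n).filter (fun w =>
        t ≤ |μ ^ U.length * NL tr U U' w - μ ^ U'.length * NL tr U' U w|), f w ≤
        2 * Real.exp 1 * H * μ ^ n * Real.exp (-(c * (t ^ 2 / n))) := by
    intro U U' h hl
    obtain ⟨c, hc, hh⟩ := H726.GB.tail (Y := (rl hA U U' h hl).sys) rfl hμ (B_le _)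
    have hp : 0 < μ ^ U.length := by positivity
    refine ⟨c / (μ ^ U.length) ^ 2, by positivity, ?_⟩
    intro f hf0 hf1 H n hn hH t ht
    have hWt : (rl hA U U' h hl).sys.Wt f := by
      refine ⟨fun _ w _ => hf0 w, ?_⟩
      rintro n w ⟨V, V'⟩ hw hq
      have hq' : (V, V') ∈ (rl hA U U' h hl).S w := hq
      have hw' : w ∈ Kw A n := hw
      rw [(rl hA U U' h hl).mem_K] at hw'
      rw [Rl.mem_S] at hq'
      have hpr := (rl hA U U' h hl).pair _ _ hq'.1
      obtain ⟨L, R, h1, h2, h3, h4, h5⟩ := Rl.rep_all hpr hw'.2 hq'.2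
      have e : (rl hA U U' h hl).sys.ins w (V, V') = L ++ V' ++ R := h2
      rw [e]
      obtain ⟨p1, p2, p3, p4, -⟩ := hpr
      apply hf1
      · rw [h3.1, hw'.2.1]
      · rw [h1]
        rcases List.eq_nil_or_concat R with hR | ⟨R', x, hR⟩
        · rw [hR, List.append_nil, List.append_nil, List.getLast?_append_of_ne_nil _ p2,
            List.getLast?_append_of_ne_nil _ p1, p4]
        · rw [hR]
          simp
    have h1 := hh f hWt H n hn (fun j hj => hH j hj) (t / μ ^ U.length) (by positivity)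
    have e : c * ((t / μ ^ U.length) ^ 2 / n) = c / (μ ^ U.length) ^ 2 * (t ^ 2 / n) := by
      field_simp
    rw [e] at h1
    refine le_trans (le_of_eq ?_) h1
    apply Finset.sum_congr _ fun _ _ => rfl
    apply Finset.filter_congr
    intro w _
    rw [card_S, card_B, div_le_iff₀ hp]
    have e2 : μ ^ U'.length = μ ^ U.length * μ ^ (rl hA U U' h hl).sys.s := by
      rw [← pow_add]
      congr 1
      show U'.length = U.length + (U'.length - U.length)
      omega
    have e3 : μ ^ U.length * (NL tr U U' w : ℝ) - μ ^ U'.length * NL tr U' U w =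
        μ ^ U.length * (NL tr U U' w - μ ^ (rl hA U U' h hl).sys.s * NL tr U' U w) := by
      rw [e2]; ring
    rw [e3, abs_mul, abs_of_pos hp, mul_comm]
  rcases le_total U.length U'.length with hl | hl
  · exact key U U' h hl
  · obtain ⟨c, hc, hh⟩ := key U' U h.symm hl
    refine ⟨c, hc, fun f hf0 hf1 H n hn hH t ht => ?_⟩
    refine le_trans (le_of_eq ?_) (hh f hf0 hf1 H n hn hH t ht)
    apply Finset.sum_congr _ fun _ _ => rfl
    apply Finset.filter_congr
    intro w _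
    rw [abs_sub_comm]

end

end H726.GD
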