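import Pool.Agent.H726.GB.Chain

/-!
# Gaussian tails for `|S w| - μ^s |B w|`
-/

set_option autoImplicit false

namespace H726.GB

open Finset TH966.AK
open scoped Classical

noncomputable section

variable {α σ : Type} {Y : Sys α σ} {f : α → ℝ}

theorem pow_div_le_exp {x d : ℝ} (hd : 0 ≤ d) (hx0 : 0 ≤ x) (hx : x ≤ 1 - d) (m : ℕ) :
    x ^ m ≤ Real.exp (-(m * d)) := by
  have h1 : x ≤ Real.exp (-d) := hx.trans (by
    have := Real.add_one_le_exp (-d)
    linarith)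
  calc x ^ m ≤ Real.exp (-d) ^ m := pow_le_pow_left₀ hx0 h1 m
    _ = Real.exp (-(m * d)) := by rw [← Real.exp_nat_mul]; ring_nf

/-- upper tail, with explicit parameters -/
theorem upper_part (h0 : Y.n0 = 0) (hf : Y.Wt f) {a t δ T : ℝ} {H μ : ℝ} {n m : ℕ} (hμ : 1 ≤ μ)
    (ha : a = μ ^ Y.s) (hB : ∀ w ∈ Y.K n, ((Y.B w).card : ℝ) ≤ T)
    (hδ0 : 0 ≤ δ) (hδ1 : δ ≤ 1) (hδT : δ * T ≤ t / 2) (hm : (a + 2) * (Y.C * m) ≤ t / 2)
    (hH : Y.af f (n + Y.s * m) ≤ H * μ ^ (n + Y.s * m)) :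
    ∑ w ∈ (Y.K n).filter (fun w => t ≤ (Y.S w).card - a * (Y.B w).card), f w ≤
      H * μ ^ n * Real.exp (-(m * (δ / (a + 1)))) := by
  have ha1 : 1 ≤ a := by rw [ha]; exact one_le_pow₀ hμ
  have hC : (1 : ℝ) ≤ Y.C := by exact_mod_cast Y.hC
  set G := (Y.K n).filter (fun w => t ≤ (Y.S w).card - a * (Y.B w).card) with hG
  have hCm : (0 : ℝ) ≤ Y.C * m := by positivity
  have h1 : (∑ w ∈ G, f w) * (a + δ) ^ m ≤ H * μ ^ (n + Y.s * m) := by
    calc (∑ w ∈ G, f w) * (a + δ) ^ m = ∑ w ∈ G, f w * (a + δ) ^ m := by rw [Finset.sum_mul]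
      _ ≤ ∑ w ∈ G, U Y f m w := by
          refine Finset.sum_le_sum fun w hw => ?_
          rw [hG, mem_filter] at hw
          refine U_lower hf (by linarith) m n w hw.1 ?_
          have hb := hB w hw.1
          have hb0 : (0 : ℝ) ≤ (Y.B w).card := by positivity
          have e1 : δ * (Y.B w).card ≤ t / 2 := (mul_le_mul_of_nonneg_left hb hδ0).trans hδT
          have e2 : δ * (Y.C * m) ≤ 1 * (Y.C * m) := mul_le_mul_of_nonneg_right hδ1 hCm
          have h3 := hw.2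
          nlinarith
      _ ≤ ∑ w ∈ Y.K n, U Y f m w := by
          refine Finset.sum_le_sum_of_subset_of_nonneg (filter_subset _ _) fun w hw _ => ?_
          exact U_nonneg hf m n w hw
      _ ≤ Y.af f (n + Y.s * m) := U_sum h0 hf m n
      _ ≤ _ := hH
  have hp : 0 < (a + δ) ^ m := by positivity
  have e3 : μ ^ (n + Y.s * m) = μ ^ n * a ^ m := by rw [pow_add, pow_mul, ha]
  have hH0 : 0 ≤ H * μ ^ n := by
    have h4 : 0 ≤ Y.af f (n + Y.s * m) := Finset.sum_nonneg fun w hw => hf.1 _ w hw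
    have h5 : 0 ≤ H * μ ^ (n + Y.s * m) := h4.trans hH
    have h6 : 0 < μ ^ (n + Y.s * m) := by positivity
    have h7 : 0 ≤ H := by
      by_contra hcon
      push Not at hcon
      have := mul_neg_of_neg_of_pos hcon h6
      linarith
    positivity
  calc ∑ w ∈ G, f w ≤ H * μ ^ (n + Y.s * m) / (a + δ) ^ m := by
        rw [le_div_iff₀ hp]; exact h1
    _ = H * μ ^ n * (a / (a + δ)) ^ m := by rw [e3, div_pow]; ring
    _ ≤ H * μ ^ n * Real.exp (-(m * (δ / (a + 1)))) := by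
        apply mul_le_mul_of_nonneg_left _ hH0
        apply pow_div_le_exp (by positivity) (by positivity)
        have h8 : δ / (a + 1) ≤ δ / (a + δ) := by
          apply div_le_div_of_nonneg_left hδ0 (by linarith) (by linarith)
        have h9 : a / (a + δ) = 1 - δ / (a + δ) := by field_simp; ring
        linarith

/-- lower tail, with explicit parameters -/
theorem lower_part (h0 : Y.n0 = 0) (hf : Y.Wt f) {a t δ T : ℝ} {H μ : ℝ} {n m : ℕ} (hμ : 1 ≤ μ)
    (ha : a = μ ^ Y.s) (hB : ∀ w ∈ Y.K (n + Y.s * m), ((Y.B w).card : ℝ) ≤ T)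
    (hδ0 : 0 ≤ δ) (hδ1 : δ ≤ 1 / 2) (hδT : δ * T ≤ t / 2) (hm : (a + 2) * (Y.C * m) ≤ t / 2)
    (hH : Y.af f n ≤ H * μ ^ n) :
    ∑ w ∈ (Y.K (n + Y.s * m)).filter (fun w => t ≤ a * (Y.B w).card - (Y.S w).card), f w ≤
      H * μ ^ (n + Y.s * m) * Real.exp (-(m * (δ / (a + 1)))) := by
  have ha1 : 1 ≤ a := by rw [ha]; exact one_le_pow₀ hμ
  have hC : (1 : ℝ) ≤ Y.C := by exact_mod_cast Y.hC
  set G := (Y.K (n + Y.s * m)).filter (fun w => t ≤ a * (Y.B w).card - (Y.S w).card) with hG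
  have hCm : (0 : ℝ) ≤ Y.C * m := by positivity
  have had : 0 < a - δ := by linarith
  have h1 : (∑ w ∈ G, f w) * (1 / (a - δ)) ^ m ≤ H * μ ^ n := by
    calc (∑ w ∈ G, f w) * (1 / (a - δ)) ^ m = ∑ w ∈ G, f w * (1 / (a - δ)) ^ m := by
          rw [Finset.sum_mul]
      _ ≤ ∑ w ∈ G, V Y f m w := by
          refine Finset.sum_le_sum fun w hw => ?_
          rw [hG, mem_filter] at hw
          refine V_lower h0 hf (by positivity) m n w hw.1 ?_
          have hb := hB w hw.1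
          have hb0 : (0 : ℝ) ≤ (Y.B w).card := by positivity
          have e1 : δ * (Y.B w).card ≤ t / 2 := (mul_le_mul_of_nonneg_left hb hδ0).trans hδT
          have e2 : 0 ≤ δ * (Y.C * m) := by positivity
          have h3 := hw.2
          rw [one_div, inv_mul_le_iff₀ had]
          nlinarith
      _ ≤ ∑ w ∈ Y.K (n + Y.s * m), V Y f m w := by
          refine Finset.sum_le_sum_of_subset_of_nonneg (filter_subset _ _) fun w hw _ => ?_
          exact V_nonneg h0 hf m n w hw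
      _ ≤ Y.af f n := V_sum h0 hf m n
      _ ≤ _ := hH
  have hH0 : 0 ≤ H * μ ^ n := by
    have h4 : 0 ≤ Y.af f n := Finset.sum_nonneg fun w hw => hf.1 _ w hw
    exact h4.trans hH
  have e3 : μ ^ (n + Y.s * m) = μ ^ n * a ^ m := by rw [pow_add, pow_mul, ha]
  have hp : 0 < (1 / (a - δ)) ^ m := by positivity
  calc ∑ w ∈ G, f w ≤ H * μ ^ n / (1 / (a - δ)) ^ m := by
        rw [le_div_iff₀ hp]; exact h1
    _ = H * μ ^ (n + Y.s * m) * ((a - δ) / a) ^ m := by
        rw [e3, div_pow, div_pow, one_pow]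
        have : a ^ m ≠ 0 := by positivity
        field_simp
    _ ≤ H * μ ^ (n + Y.s * m) * Real.exp (-(m * (δ / (a + 1)))) := by
        have hH1 : 0 ≤ H * μ ^ (n + Y.s * m) := by
          rw [e3, ← mul_assoc]; positivity
        apply mul_le_mul_of_nonneg_left _ hH1
        apply pow_div_le_exp (by positivity) (by positivity)
        have h8 : δ / (a + 1) ≤ δ / a := by
          apply div_le_div_of_nonneg_left hδ0 (by linarith) (by linarith)
        have h9 : (a - δ) / a = 1 - δ / a := by field_simp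
        linarith

theorem tail_core (h0 : Y.n0 = 0) {μ : ℝ} (hμ : 1 ≤ μ)
    (hB : ∀ n w, w ∈ Y.K n → (Y.B w).card ≤ Y.C * (n + 1)) :
    ∃ c : ℝ, 0 < c ∧ ∀ (f : α → ℝ), Y.Wt f → ∀ (H : ℝ) (n : ℕ), 1 ≤ n →
      (∀ j ≤ 2 * n, Y.af f j ≤ H * μ ^ j) → ∀ t : ℝ, 0 ≤ t → t ≤ Y.C * (n + 1) →
      ∑ w ∈ (Y.K n).filter (fun w => t ≤ |((Y.S w).card : ℝ) - μ ^ Y.s * (Y.B w).card|), f w ≤
        2 * Real.exp 1 * H * μ ^ n * Real.exp (-(c * (t ^ 2 / n))) := by
  obtain ⟨a, ha⟩ : ∃ a : ℝ, a = μ ^ Y.s := ⟨_, rfl⟩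
  have ha1 : 1 ≤ a := by rw [ha]; exact one_le_pow₀ hμ
  have hC : (1 : ℝ) ≤ Y.C := by exact_mod_cast Y.hC
  obtain ⟨κ, hκ⟩ : ∃ κ : ℝ, κ = 1 / (2 * Y.C * (a + 2) * (Y.s + 1)) := ⟨_, rfl⟩
  have hs0 : (0 : ℝ) ≤ Y.s := by positivity
  have hκ0 : 0 < κ := by rw [hκ]; positivity
  refine ⟨κ / (4 * Y.C * (a + 1)), by positivity, ?_⟩
  intro f hf H n hn hH t ht0 htT
  have hn' : (1 : ℝ) ≤ n := by exact_mod_cast hn
  set m : ℕ := ⌊κ * t⌋₊ with hm
  have hm1 : (m : ℝ) ≤ κ * t := Nat.floor_le (by positivity)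
  have hm2 : κ * t < m + 1 := Nat.lt_floor_add_one _
  set T : ℝ := Y.C * (n + 1) with hT
  have hT0 : 0 < T := by rw [hT]; positivity
  have hT2 : T ≤ 2 * Y.C * n := by rw [hT]; nlinarith
  set δ : ℝ := t / (2 * T) with hδ
  have hδ0 : 0 ≤ δ := by positivity
  have hδ1 : δ ≤ 1 / 2 := by
    rw [hδ, div_le_div_iff₀ (by positivity) (by norm_num)]; linarith
  have hδT : δ * T ≤ t / 2 := by
    rw [hδ]; apply le_of_eq; field_simp
  have hmC : (a + 2) * (Y.C * m) ≤ t / 2 := by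
    have e : κ * (2 * Y.C * (a + 2) * (Y.s + 1)) = 1 := by
      rw [hκ]; field_simp
    have e1 : κ * t * (2 * Y.C * (a + 2)) * (Y.s + 1) = t := by
      calc κ * t * (2 * Y.C * (a + 2)) * (Y.s + 1) = (κ * (2 * Y.C * (a + 2) * (Y.s + 1))) * t := by
            ring
        _ = t := by rw [e, one_mul]
    have e2 : κ * t * (2 * Y.C * (a + 2)) ≤ κ * t * (2 * Y.C * (a + 2)) * (Y.s + 1) := by
      have : 0 ≤ κ * t * (2 * Y.C * (a + 2)) := by positivity
      nlinarith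
    have e3 : (m : ℝ) * (2 * Y.C * (a + 2)) ≤ κ * t * (2 * Y.C * (a + 2)) :=
      mul_le_mul_of_nonneg_right hm1 (by positivity)
    nlinarith
  have hsm : Y.s * m ≤ n := by
    have e : κ * (2 * Y.C * (a + 2) * (Y.s + 1)) = 1 := by
      rw [hκ]; field_simp
    have h1 : (Y.s : ℝ) * m ≤ n := by
      calc (Y.s : ℝ) * m ≤ Y.s * (κ * t) := mul_le_mul_of_nonneg_left hm1 hs0
        _ ≤ (Y.s + 1) * (κ * (2 * Y.C * n)) := by
            apply mul_le_mul (by linarith) _ (by positivity) (by positivity)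
            exact mul_le_mul_of_nonneg_left (htT.trans hT2) hκ0.le
        _ ≤ (Y.s + 1) * (κ * (2 * Y.C * n)) * (a + 2) := by
            apply le_mul_of_one_le_right (by positivity) (by linarith)
        _ = (κ * (2 * Y.C * (a + 2) * (Y.s + 1))) * n := by ring
        _ = n := by rw [e, one_mul]
    exact_mod_cast h1
  have hexp : Real.exp (-(m * (δ / (a + 1)))) ≤
      Real.exp 1 * Real.exp (-(κ / (4 * Y.C * (a + 1)) * (t ^ 2 / n))) := by
    rw [← Real.exp_add, Real.exp_le_exp]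
    have h1 : κ / (4 * Y.C * (a + 1)) * (t ^ 2 / n) ≤ κ * t * (δ / (a + 1)) := by
      rw [hδ]
      have e1 : κ / (4 * Y.C * (a + 1)) * (t ^ 2 / n) = κ * t ^ 2 / ((a + 1) * (4 * Y.C * n)) := by
        field_simp
      have e2 : κ * t * (t / (2 * T) / (a + 1)) = κ * t ^ 2 / ((a + 1) * (2 * T)) := by
        field_simp
      rw [e1, e2]
      apply div_le_div_of_nonneg_left (by positivity) (by positivity)
      apply mul_le_mul_of_nonneg_left _ (by positivity)
      linarith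
    have h2 : κ * t * (δ / (a + 1)) ≤ (m + 1) * (δ / (a + 1)) :=
      mul_le_mul_of_nonneg_right hm2.le (by positivity)
    have h3 : δ / (a + 1) ≤ 1 := by
      rw [div_le_one (by positivity)]; linarith
    nlinarith
  have hH0 : 0 ≤ H * μ ^ n := by
    have h4 : 0 ≤ Y.af f n := Finset.sum_nonneg fun w hw => hf.1 _ w hw
    exact h4.trans (hH n (by omega))
  have hup := upper_part (Y := Y) h0 hf (a := a) (t := t) (δ := δ) (T := T) (H := H) (μ := μ) (n := n)
    (m := m) hμ ha (fun w hw => by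
      have := hB n w hw
      rw [hT]; exact_mod_cast this) hδ0 (by linarith) hδT hmC (hH _ (by omega))
  obtain ⟨n', hn'⟩ : ∃ n', n = n' + Y.s * m := ⟨n - Y.s * m, by omega⟩
  have hlo := lower_part (Y := Y) h0 hf (a := a) (t := t) (δ := δ) (T := T) (H := H) (μ := μ) (n := n')
    (m := m) hμ ha (fun w hw => by
      rw [← hn'] at hw
      have := hB n w hw
      rw [hT]; exact_mod_cast this) hδ0 hδ1 hδT hmC (hH _ (by omega))
  rw [← hn'] at hlo
  rw [← ha]
  have hsub : (Y.K n).filter (fun w => t ≤ |((Y.S w).card : ℝ) - a * (Y.B w).card|) ⊆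
      (Y.K n).filter (fun w => t ≤ (Y.S w).card - a * (Y.B w).card) ∪
      (Y.K n).filter (fun w => t ≤ a * (Y.B w).card - (Y.S w).card) := by
    intro w hw
    rw [mem_filter] at hw
    rw [mem_union, mem_filter, mem_filter]
    rcases le_abs.1 hw.2 with h | h
    · exact Or.inl ⟨hw.1, h⟩
    · exact Or.inr ⟨hw.1, by linarith⟩
  have hfn : ∀ w ∈ Y.K n, 0 ≤ f w := fun w hw => hf.1 n w hw
  calc ∑ w ∈ (Y.K n).filter (fun w => t ≤ |((Y.S w).card : ℝ) - a * (Y.B w).card|), f w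
      ≤ ∑ w ∈ (Y.K n).filter (fun w => t ≤ (Y.S w).card - a * (Y.B w).card) ∪
          (Y.K n).filter (fun w => t ≤ a * (Y.B w).card - (Y.S w).card), f w := by
        refine Finset.sum_le_sum_of_subset_of_nonneg hsub fun w hw _ => ?_
        rw [mem_union, mem_filter, mem_filter] at hw
        exact hfn w (by tauto)
    _ ≤ ∑ w ∈ (Y.K n).filter (fun w => t ≤ (Y.S w).card - a * (Y.B w).card), f w +
          ∑ w ∈ (Y.K n).filter (fun w => t ≤ a * (Y.B w).card - (Y.S w).card), f w := by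
        rw [← Finset.sum_union_inter]
        have : 0 ≤ ∑ w ∈ (Y.K n).filter (fun w => t ≤ (Y.S w).card - a * (Y.B w).card) ∩
          (Y.K n).filter (fun w => t ≤ a * (Y.B w).card - (Y.S w).card), f w := by
          refine Finset.sum_nonneg fun w hw => ?_
          rw [mem_inter, mem_filter] at hw
          exact hfn w hw.1.1
        linarith
    _ ≤ H * μ ^ n * Real.exp (-(m * (δ / (a + 1)))) +
        H * μ ^ n * Real.exp (-(m * (δ / (a + 1)))) := add_le_add hup hlo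
    _ = 2 * (H * μ ^ n) * Real.exp (-(m * (δ / (a + 1)))) := by ring
    _ ≤ 2 * (H * μ ^ n) *
        (Real.exp 1 * Real.exp (-(κ / (4 * Y.C * (a + 1)) * (t ^ 2 / n)))) :=
        mul_le_mul_of_nonneg_left hexp (by positivity)
    _ = _ := by ring

/-- **Gaussian tails.** -/
theorem tail (h0 : Y.n0 = 0) {μ : ℝ} (hμ : 1 ≤ μ)
    (hB : ∀ n w, w ∈ Y.K n → (Y.B w).card ≤ Y.C * (n + 1)) :
    ∃ c : ℝ, 0 < c ∧ ∀ (f : α → ℝ), Y.Wt f → ∀ (H : ℝ) (n : ℕ), 1 ≤ n →
      (∀ j ≤ 2 * n, Y.af f j ≤ H * μ ^ j) → ∀ t : ℝ, 0 ≤ t →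
      ∑ w ∈ (Y.K n).filter (fun w => t ≤ |((Y.S w).card : ℝ) - μ ^ Y.s * (Y.B w).card|), f w ≤
        2 * Real.exp 1 * H * μ ^ n * Real.exp (-(c * (t ^ 2 / n))) := by
  obtain ⟨c, hc, h⟩ := tail_core h0 hμ hB
  obtain ⟨a, ha⟩ : ∃ a : ℝ, a = μ ^ Y.s := ⟨_, rfl⟩
  have ha1 : 1 ≤ a := by rw [ha]; exact one_le_pow₀ hμ
  have hC : (1 : ℝ) ≤ Y.C := by exact_mod_cast Y.hC
  refine ⟨c / a ^ 2, by positivity, ?_⟩
  intro f hf H n hn hH t ht0
  have hn' : (1 : ℝ) ≤ n := by exact_mod_cast hn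
  have hH0 : 0 ≤ H * μ ^ n := by
    have h4 : 0 ≤ Y.af f n := Finset.sum_nonneg fun w hw => hf.1 _ w hw
    exact h4.trans (hH n (by omega))
  rcases le_or_gt t (a * (Y.C * (n + 1))) with htT | htT
  · have h1 := h f hf H n hn hH (t / a) (by positivity) (by
      rw [div_le_iff₀ (by linarith), mul_comm]; exact htT)
    rw [← ha] at h1 ⊢
    have e : c * ((t / a) ^ 2 / n) = c / a ^ 2 * (t ^ 2 / n) := by field_simp
    rw [e] at h1
    refine le_trans ?_ h1
    refine Finset.sum_le_sum_of_subset_of_nonneg ?_ fun w hw _ => ?_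
    · intro w hw
      rw [mem_filter] at hw ⊢
      refine ⟨hw.1, le_trans ?_ hw.2⟩
      rw [div_le_iff₀ (by linarith)]
      nlinarith
    · rw [mem_filter] at hw
      exact hf.1 n w hw.1
  · rw [← ha]
    have he : (Y.K n).filter (fun w => t ≤ |((Y.S w).card : ℝ) - a * (Y.B w).card|) = ∅ := by
      rw [Finset.filter_eq_empty_iff]
      intro w hw hcon
      have h1 : ((Y.B w).card : ℝ) ≤ Y.C * (n + 1) := by exact_mod_cast hB n w hw
      have h2 : ((Y.S w).card : ℝ) ≤ Y.C * (n + 1) := by exact_mod_cast Y.S_le n w hw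
      have h3 : (0 : ℝ) ≤ (Y.B w).card := by positivity
      have h4 : (0 : ℝ) ≤ (Y.S w).card := by positivity
      have h5 : |((Y.S w).card : ℝ) - a * (Y.B w).card| ≤ a * (Y.C * (n + 1)) := by
        rw [abs_le]
        have h6 : a * (Y.B w).card ≤ a * (Y.C * (n + 1)) := mul_le_mul_of_nonneg_left h1 (by linarith)
        have h7 : 0 ≤ a * (Y.B w).card := by positivity
        have h8 : (Y.C : ℝ) * (n + 1) ≤ a * (Y.C * (n + 1)) :=
          le_mul_of_one_le_left (by positivity) ha1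
        constructor <;> linarith
      linarith
    rw [he, Finset.sum_empty]
    have : 0 ≤ 2 * (H * μ ^ n) * Real.exp 1 * Real.exp (-(c / a ^ 2 * (t ^ 2 / n))) := by positivity
    calc (0 : ℝ) ≤ _ := this
      _ = _ := by ring

end

end H726.GB
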