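import Pool.Agent.TH966.AK.Win
import Pool.Agent.H726.GB.Tail

/-!
# Replacement of one finite path by another one with the same ends (any two paths)
-/

set_option autoImplicit false

namespace H726.GB

open Finset Filter Topology TH966.AK
open scoped Classical

variable {A : P → P → Prop}

/-- two windows with the same ends -/
def Pr (A : P → P → Prop) (U U' : List P) : Prop :=
  U ≠ [] ∧ U' ≠ [] ∧ U.head? = U'.head? ∧ U.getLast? = U'.getLast? ∧ U.Nodup ∧ U'.Nodup ∧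
    U.IsChain A ∧ U'.IsChain A

theorem Pr.symm {U U' : List P} (h : Pr A U U') : Pr A U' U := by
  obtain ⟨h1, h2, h3, h4, h5, h6, h7, h8⟩ := h
  exact ⟨h2, h1, h3.symm, h4.symm, h6, h5, h8, h7⟩

theorem flip {U U' L R : List P} (h : Pr A U U') (hw : Walk A (L ++ U ++ R))
    (hf : ∀ x ∈ U', x ∉ U → x ∉ L ++ U ++ R) :
    Walk A (L ++ U' ++ R) ∧ Free U' U (L ++ U' ++ R) := by
  obtain ⟨h1, h2, h3, h4, h5, h6, h7, h8⟩ := h
  obtain ⟨w1, w2, w3⟩ := hw
  rw [List.nodup_append, List.nodup_append] at w2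
  obtain ⟨⟨w4, w5, w6⟩, w7, w8⟩ := w2
  have hL : ∀ x ∈ U, x ∉ L := fun x hx hc => w6 x hc x hx rfl
  have hR : ∀ x ∈ U, x ∉ R := fun x hx hc => w8 x (by simp [hx]) x hc rfl
  have hU' : ∀ x ∈ U', x ∉ L ∧ x ∉ R := by
    intro x hx
    by_cases hU : x ∈ U
    · exact ⟨hL x hU, hR x hU⟩
    · have := hf x hx hU
      simp only [List.mem_append, not_or] at this
      exact ⟨this.1.1, this.2⟩
  refine ⟨⟨?_, ?_, ?_⟩, ⟨L, R, rfl⟩, ?_⟩
  · rw [← w1, List.append_assoc, List.append_assoc]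
    rcases L with _ | ⟨a, L⟩
    · rw [List.nil_append, List.nil_append, List.head?_append_of_ne_nil _ h2,
        List.head?_append_of_ne_nil _ h1, h3]
    · rfl
  · rw [List.nodup_append, List.nodup_append]
    refine ⟨⟨w4, h6, ?_⟩, w7, ?_⟩
    · intro a ha b hb hab
      subst hab
      exact (hU' a hb).1 ha
    · intro a ha b hb hab
      subst hab
      rw [List.mem_append] at ha
      rcases ha with ha | ha
      · exact w8 a (by simp [ha]) a hb rfl
      · exact (hU' a ha).2 hb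
  · rw [List.isChain_append, List.isChain_append] at w3 ⊢
    obtain ⟨⟨w9, -, w10⟩, w11, w12⟩ := w3
    refine ⟨⟨w9, h8, ?_⟩, w11, ?_⟩
    · rw [← h3]; exact w10
    · rw [List.getLast?_append_of_ne_nil _ h2, ← h4, ← List.getLast?_append_of_ne_nil L h1]
      exact w12
  · intro x hx hx'
    simp only [List.mem_append, not_or]
    exact ⟨⟨hL x hx, hx'⟩, hR x hx⟩

/-- a local window of `w` is a local window after the replacement unless it meets the windows -/
theorem keep {U U' V V' L R : List P} (h : Pr A U U') (hV : V ≠ [])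
    (hf : Free V V' (L ++ U ++ R)) (hd : ∀ x ∈ U ++ U', x ∉ V ++ V') :
    Free V V' (L ++ U' ++ R) := by
  obtain ⟨h1, h2, -⟩ := h
  obtain ⟨f1, f2⟩ := hf
  constructor
  · obtain ⟨z, U0, hz⟩ := List.exists_cons_of_ne_nil h1
    have hdV : ∀ x ∈ U, x ∉ V := fun x hx hc => hd x (by simp [hx]) (by simp [hc])
    have e : L ++ U ++ R = L ++ z :: (U0 ++ R) := by rw [hz]; simp
    rw [e] at f1
    rcases infix_split f1 (hdV z (by rw [hz]; simp)) with h3 | h3
    · exact h3.trans ⟨[], U' ++ R, by simp⟩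
    · have h4 := infix_drop hV h3 fun x hx => hdV x (by rw [hz]; simp [hx])
      exact h4.trans ⟨L ++ U', [], by simp⟩
  · intro x hx hxV hc
    have h5 := f2 x hx hxV
    simp only [List.mem_append, not_or] at h5 hc
    rcases hc with (hc | hc) | hc
    · exact h5.1.1 hc
    · exact hd x (by simp [hc]) (by simp [hx])
    · exact h5.2 hc

/-- a local rule -/
structure Rl (A : P → P → Prop) where
  T : List P → List P → Prop
  ρ : ℕ
  k : ℕ
  s : ℕ
  step : ∀ p q, A p q → |p.1 - q.1| ≤ 1 ∧ |p.2 - q.2| ≤ 1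
  pair : ∀ U U', T U U' → Pr A U U'
  len : ∀ U U', T U U' → U.length = k ∧ U'.length = k + s
  loc : ∀ U U', T U U' → ∀ x ∈ U ++ U', ∀ y ∈ U ++ U', |x.1 - y.1| ≤ ρ ∧ |x.2 - y.2| ≤ ρ

namespace Rl

variable (Z : Rl A)

noncomputable section

/-- candidates for windows with first point `p` -/
def cand (p : P) : Finset (List P × List P) :=
  lists (box p Z.ρ) Z.k ×ˢ lists (box p Z.ρ) (Z.k + Z.s)

/-- bound for their number -/
def c0 : ℕ := ((2 * Z.ρ + 1) ^ 2) ^ Z.k * ((2 * Z.ρ + 1) ^ 2) ^ (Z.k + Z.s)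

theorem card_cand (p : P) : (Z.cand p).card ≤ Z.c0 := by
  unfold cand c0
  rw [Finset.card_product, ← card_box p]
  exact Nat.mul_le_mul (card_lists _ _) (card_lists _ _)

theorem mem_cand {U U' : List P} (h : Z.T U U') {p : P} (hp : p ∈ U ++ U') :
    (U, U') ∈ Z.cand p := by
  unfold cand
  rw [Finset.mem_product, mem_lists, mem_lists]
  obtain ⟨h1, h2⟩ := Z.len U U' h
  refine ⟨⟨h1, fun x hx => ?_⟩, ⟨h2, fun x hx => ?_⟩⟩
  · exact mem_box.2 (Z.loc U U' h p hp x (by simp [hx]))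
  · exact mem_box.2 (Z.loc U U' h p hp x (by simp [hx]))

theorem chain_box (Z : Rl A) : ∀ (l : List P) (x : P) (m : ℕ), (x :: l).IsChain A →
    (x :: l).length ≤ m + 1 → ∀ y ∈ x :: l, |x.1 - y.1| ≤ m ∧ |x.2 - y.2| ≤ m := by
  intro l
  induction l with
  | nil =>
    intro x m _ _ y hy
    simp only [List.mem_singleton] at hy
    subst hy
    simp
  | cons z l ih =>
    intro x m hc hl y hy
    rw [List.isChain_cons_cons] at hc
    rw [List.mem_cons] at hy
    rcases hy with rfl | hy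
    · simp
    · obtain ⟨m', rfl⟩ : ∃ m', m = m' + 1 := by
        simp only [List.length_cons] at hl
        exact ⟨m - 1, by omega⟩
      have h1 := ih z m' hc.2 (by simp only [List.length_cons] at hl ⊢; omega) y hy
      have h2 := Z.step x z hc.1
      rw [abs_le, abs_le] at *
      push_cast
      omega

include Z in
theorem mem_K {n : ℕ} {w : List P} : w ∈ Kw A n ↔ w.length = n + 1 ∧ Walk A w := by
  unfold Kw
  rw [Finset.mem_filter, mem_lists]
  constructor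
  · rintro ⟨⟨h1, -⟩, h2⟩
    exact ⟨h1, h2⟩
  · rintro ⟨h1, h2⟩
    refine ⟨⟨h1, ?_⟩, h2⟩
    obtain ⟨h3, h4, h5⟩ := h2
    obtain ⟨a, b, rfl⟩ := List.exists_cons_of_length_eq_add_one h1
    simp only [List.head?_cons, Option.some.injEq] at h3
    subst h3
    intro x hx
    rw [mem_box]
    exact Z.chain_box b 0 n h5 h1.le x hx

/-- upward moves -/
def S (w : List P) : Finset (List P × List P) :=
  (w.toFinset.biUnion Z.cand).filter (fun q => Z.T q.1 q.2 ∧ Free q.1 q.2 w)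

/-- downward moves -/
def B (w : List P) : Finset (List P × List P) :=
  (w.toFinset.biUnion Z.cand).filter (fun q => Z.T q.1 q.2 ∧ Free q.2 q.1 w)

theorem ne_nil {U U' : List P} (h : Pr A U U') : U ≠ [] := h.1

theorem mem_S {w : List P} {q : List P × List P} :
    q ∈ Z.S w ↔ Z.T q.1 q.2 ∧ Free q.1 q.2 w := by
  unfold S
  rw [Finset.mem_filter]
  constructor
  · exact fun h => h.2
  · rintro ⟨h1, h2⟩
    refine ⟨?_, h1, h2⟩
    obtain ⟨p, U0, h3⟩ := List.exists_cons_of_ne_nil (ne_nil (Z.pair _ _ h1))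
    rw [Finset.mem_biUnion]
    refine ⟨p, ?_, Z.mem_cand h1 (by rw [h3]; simp)⟩
    rw [List.mem_toFinset]
    exact h2.1.subset (by rw [h3]; simp)

theorem mem_B {w : List P} {q : List P × List P} :
    q ∈ Z.B w ↔ Z.T q.1 q.2 ∧ Free q.2 q.1 w := by
  unfold B
  rw [Finset.mem_filter]
  constructor
  · exact fun h => h.2
  · rintro ⟨h1, h2⟩
    refine ⟨?_, h1, h2⟩
    obtain ⟨p, U0, h3⟩ := List.exists_cons_of_ne_nil (ne_nil (Z.pair _ _ h1).symm)
    rw [Finset.mem_biUnion]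
    refine ⟨p, ?_, Z.mem_cand h1 (by rw [h3]; simp)⟩
    rw [List.mem_toFinset]
    exact h2.1.subset (by rw [h3]; simp)

/-- everything about one replacement -/
theorem rep_all {U U' w : List P} (h : Pr A U U') (hw : Walk A w) (hf : Free U U' w) :
    ∃ L R, w = L ++ U ++ R ∧ Rule.rep w U U' = L ++ U' ++ R ∧ Walk A (L ++ U' ++ R) ∧
      Free U' U (L ++ U' ++ R) ∧ Rule.rep (L ++ U' ++ R) U' U = w := by
  obtain ⟨⟨L, R, h1⟩, h2⟩ := hf
  subst h1
  obtain ⟨h3, h4⟩ := flip h hw h2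
  refine ⟨L, R, rfl, Rule.rep_eq (ne_nil h) hw.2.1, h3, h4, ?_⟩
  exact Rule.rep_eq (ne_nil h.symm) h3.2.1

/-- the windows near `p` -/
def near (p : P) : Finset (List P × List P) := (box p Z.ρ).biUnion Z.cand

/-- the constant -/
def CC : ℕ := (2 * Z.ρ + 1) ^ 2 * Z.c0 + Z.c0 + 1

theorem card_near (p : P) : (Z.near p).card ≤ Z.CC := by
  have h := Finset.card_biUnion_le_card_mul (box p Z.ρ) Z.cand Z.c0 fun x _ => Z.card_cand x
  rw [card_box] at h
  unfold near CC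
  omega

theorem mem_near {U U' V V' : List P} (hU : Z.T U U') (hV : Z.T V V') {p x : P}
    (hp : p ∈ U ++ U') (hx : x ∈ U ++ U') (hx' : x ∈ V ++ V') : (V, V') ∈ Z.near p := by
  unfold near
  rw [Finset.mem_biUnion]
  exact ⟨x, mem_box.2 (Z.loc U U' hU p hp x hx), Z.mem_cand hV hx'⟩

theorem card_le_of_diff {S1 S2 N : Finset (List P × List P)} {C : ℕ}
    (h : ∀ q ∈ S1, q ∉ S2 → q ∈ N) (hN : N.card ≤ C) : S1.card ≤ S2.card + C := by
  have h1 : S1 ⊆ S2 ∪ N := by
    intro q hq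
    rw [Finset.mem_union]
    by_cases h2 : q ∈ S2
    · exact Or.inl h2
    · exact Or.inr (h q hq h2)
  exact (Finset.card_le_card h1).trans ((Finset.card_union_le _ _).trans (by omega))

/-- the change of the numbers of moves -/
theorem change {U U' L R : List P} (hT : Z.T U U' ∨ Z.T U' U) (h : Pr A U U') :
    (Z.S (L ++ U ++ R)).card ≤ (Z.S (L ++ U' ++ R)).card + Z.CC ∧
    (Z.B (L ++ U ++ R)).card ≤ (Z.B (L ++ U' ++ R)).card + Z.CC := by
  obtain ⟨p, U0, h3⟩ := List.exists_cons_of_ne_nil (ne_nil h)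
  have hnear : ∀ V V', Z.T V V' → ∀ x ∈ U ++ U', x ∈ V ++ V' → (V, V') ∈ Z.near p := by
    intro V V' hV x hx hx'
    rcases hT with hT | hT
    · exact Z.mem_near hT hV (by rw [h3]; simp) hx hx'
    · refine Z.mem_near hT hV (by rw [h3]; simp) ?_ hx'
      rw [List.mem_append] at hx ⊢
      exact hx.symm
  constructor
  · refine card_le_of_diff (N := Z.near p) ?_ (Z.card_near p)
    rintro ⟨V, V'⟩ hq hq'
    rw [mem_S] at hq hq'
    by_contra hcon
    refine hq' ⟨hq.1, keep h (ne_nil (Z.pair _ _ hq.1)) hq.2 fun x hx hc => ?_⟩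
    exact hcon (hnear V V' hq.1 x hx hc)
  · refine card_le_of_diff (N := Z.near p) ?_ (Z.card_near p)
    rintro ⟨V, V'⟩ hq hq'
    rw [mem_B] at hq hq'
    by_contra hcon
    refine hq' ⟨hq.1, keep h (ne_nil (Z.pair _ _ hq.1).symm) hq.2 fun x hx hc => ?_⟩
    refine hcon (hnear V V' hq.1 x hx ?_)
    rw [List.mem_append] at hc ⊢
    exact hc.symm

/-- the system of moves -/
def sys : Sys (List P) (List P × List P) where
  K := Kw A
  S := Z.S
  B := Z.B
  ins w q := Rule.rep w q.1 q.2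
  rem w q := Rule.rep w q.2 q.1
  s := Z.s
  C := Z.CC
  n0 := 0
  hC := by unfold CC; omega
  ins_K := by
    rintro n w ⟨U, U'⟩ hw hq
    rw [Z.mem_K] at hw ⊢
    rw [mem_S] at hq
    obtain ⟨L, R, h1, h2, h3, h4, h5⟩ := rep_all (Z.pair _ _ hq.1) hw.2 hq.2
    have hl := Z.len _ _ hq.1
    simp only at h1 h2 h3 h4 h5 hl ⊢
    rw [h2]
    refine ⟨?_, h3⟩
    have h6 := hw.1
    rw [h1] at h6
    simp only [List.length_append] at h6 ⊢
    omega
  ins_B := by
    rintro n w ⟨U, U'⟩ hw hq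
    rw [Z.mem_K] at hw
    rw [mem_S] at hq
    obtain ⟨L, R, h1, h2, h3, h4, h5⟩ := rep_all (Z.pair _ _ hq.1) hw.2 hq.2
    rw [mem_B, h2]
    exact ⟨hq.1, h4⟩
  rem_ins := by
    rintro n w ⟨U, U'⟩ hw hq
    rw [Z.mem_K] at hw
    rw [mem_S] at hq
    obtain ⟨L, R, h1, h2, h3, h4, h5⟩ := rep_all (Z.pair _ _ hq.1) hw.2 hq.2
    rw [h2]
    exact h5
  rem_K := by
    rintro n w ⟨U, U'⟩ - hw hq
    rw [Z.mem_K] at hw ⊢
    rw [mem_B] at hq
    obtain ⟨L, R, h1, h2, h3, h4, h5⟩ := rep_all (Z.pair _ _ hq.1).symm hw.2 hq.2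
    have hl := Z.len _ _ hq.1
    simp only at h1 h2 h3 h4 h5 hl ⊢
    rw [h2]
    refine ⟨?_, h3⟩
    have h6 := hw.1
    rw [h1] at h6
    simp only [List.length_append] at h6 ⊢
    omega
  rem_S := by
    rintro n w ⟨U, U'⟩ - hw hq
    rw [Z.mem_K] at hw
    rw [mem_B] at hq
    obtain ⟨L, R, h1, h2, h3, h4, h5⟩ := rep_all (Z.pair _ _ hq.1).symm hw.2 hq.2
    rw [mem_S, h2]
    exact ⟨hq.1, h4⟩
  ins_rem := by
    rintro n w ⟨U, U'⟩ - hw hq
    rw [Z.mem_K] at hw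
    rw [mem_B] at hq
    obtain ⟨L, R, h1, h2, h3, h4, h5⟩ := rep_all (Z.pair _ _ hq.1).symm hw.2 hq.2
    rw [h2]
    exact h5
  chS1 := by
    rintro n w ⟨U, U'⟩ hw hq
    rw [Z.mem_K] at hw
    rw [mem_S] at hq
    obtain ⟨L, R, h1, h2, h3, h4, h5⟩ := rep_all (Z.pair _ _ hq.1) hw.2 hq.2
    rw [h2]
    conv_lhs => rw [h1]
    exact (Z.change (Or.inl hq.1) (Z.pair _ _ hq.1)).1
  chS2 := by
    rintro n w ⟨U, U'⟩ hw hq
    rw [Z.mem_K] at hw
    rw [mem_S] at hq
    obtain ⟨L, R, h1, h2, h3, h4, h5⟩ := rep_all (Z.pair _ _ hq.1) hw.2 hq.2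
    rw [h2]
    conv_rhs => rw [h1]
    exact (Z.change (Or.inr hq.1) (Z.pair _ _ hq.1).symm).1
  chB1 := by
    rintro n w ⟨U, U'⟩ hw hq
    rw [Z.mem_K] at hw
    rw [mem_S] at hq
    obtain ⟨L, R, h1, h2, h3, h4, h5⟩ := rep_all (Z.pair _ _ hq.1) hw.2 hq.2
    rw [h2]
    conv_lhs => rw [h1]
    exact (Z.change (Or.inl hq.1) (Z.pair _ _ hq.1)).2
  chB2 := by
    rintro n w ⟨U, U'⟩ hw hq
    rw [Z.mem_K] at hw
    rw [mem_S] at hq
    obtain ⟨L, R, h1, h2, h3, h4, h5⟩ := rep_all (Z.pair _ _ hq.1) hw.2 hq.2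
    rw [h2]
    conv_rhs => rw [h1]
    exact (Z.change (Or.inr hq.1) (Z.pair _ _ hq.1).symm).2
  S_le := by
    intro n w hw
    rw [Z.mem_K] at hw
    have h1 : (Z.S w).card ≤ (w.toFinset.biUnion Z.cand).card := Finset.card_filter_le _ _
    have h2 := Finset.card_biUnion_le_card_mul w.toFinset Z.cand Z.c0 fun x _ => Z.card_cand x
    have h3 : w.toFinset.card ≤ n + 1 := (List.toFinset_card_le w).trans hw.1.le
    have h4 : w.toFinset.card * Z.c0 ≤ (n + 1) * Z.c0 := Nat.mul_le_mul_right _ h3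
    have h5 : Z.c0 ≤ Z.CC := by unfold CC; omega
    have h6 : (n + 1) * Z.c0 ≤ Z.CC * (n + 1) := by
      rw [mul_comm]; exact Nat.mul_le_mul_right _ h5
    omega

end

end Rl

end H726.GB
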